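import Mathlib

/-!
# The hemisphere of the root system `D_5`
-/

set_option autoImplicit false

noncomputable section

namespace KissLP

/-- Signs. -/
def sg (a : Fin 3) : ℤ := (a : ℤ) - 1

/-- Index set of the roots of `D_5` in a closed half-space. -/
def V5 : Finset (Fin 5 → Fin 3) :=
  Finset.univ.filter (fun v => ∑ i, (sg (v i)) ^ 2 = 2 ∧ 0 ≤ sg (v 0))

theorem card_V5 : V5.card = 32 := by decide +kernel

theorem sg_inj {a b : Fin 3} (h : sg a = sg b) : a = b := by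
  unfold sg at h
  ext
  omega

/-- The vectors. -/
def vec5 (v : Fin 5 → Fin 3) : EuclideanSpace ℝ (Fin 5) :=
  WithLp.toLp 2 (fun i => Real.sqrt 2 * (sg (v i) : ℝ))

theorem vec5_apply (v : Fin 5 → Fin 3) (i : Fin 5) : vec5 v i = Real.sqrt 2 * (sg (v i) : ℝ) := rfl

theorem vec5_inj : Function.Injective vec5 := by
  intro v w h
  funext i
  have h1 : vec5 v i = vec5 w i := by rw [h]
  rw [vec5_apply, vec5_apply] at h1
  have h2 : Real.sqrt 2 ≠ 0 := by positivity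
  have h3 := mul_left_cancel₀ h2 h1
  exact sg_inj (by exact_mod_cast h3)

theorem vec5_norm {v : Fin 5 → Fin 3} (h : ∑ i, (sg (v i)) ^ 2 = 2) : ‖vec5 v‖ = 2 := by
  have h1 : ‖vec5 v‖ ^ 2 = 4 := by
    rw [EuclideanSpace.real_norm_sq_eq]
    have h2 : ∀ i, (vec5 v i) ^ 2 = 2 * (((sg (v i)) ^ 2 : ℤ) : ℝ) := by
      intro i
      rw [vec5_apply, mul_pow, Real.sq_sqrt (by norm_num)]
      push_cast
      ring
    rw [Finset.sum_congr rfl (fun i _ => h2 i), ← Finset.mul_sum, ← Int.cast_sum, h]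
    norm_num
  have h2 : 0 ≤ ‖vec5 v‖ := norm_nonneg _
  nlinarith

theorem int_dist {a b : Fin 5 → ℤ} (ha : ∑ i, (a i) ^ 2 = 2) (hb : ∑ i, (b i) ^ 2 = 2)
    (hab : a ≠ b) : 2 ≤ ∑ i, (a i - b i) ^ 2 := by
  have h1 : ∑ i, (a i - b i) ^ 2 = 4 - 2 * ∑ i, a i * b i := by
    have h2 : ∀ i, (a i - b i) ^ 2 = (a i) ^ 2 + (b i) ^ 2 - 2 * (a i * b i) := by
      intro i
      ring
    rw [Finset.sum_congr rfl (fun i _ => h2 i), Finset.sum_sub_distrib, Finset.sum_add_distrib,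
      ha, hb, ← Finset.mul_sum]
    norm_num
  have h2 : 0 < ∑ i, (a i - b i) ^ 2 := by
    have h3 : ∃ i, a i ≠ b i := by
      by_contra h4
      push Not at h4
      exact hab (funext h4)
    obtain ⟨i, hi⟩ := h3
    apply Finset.sum_pos'
    · intro j _
      exact sq_nonneg _
    · exact ⟨i, Finset.mem_univ i, by
        have : a i - b i ≠ 0 := sub_ne_zero.mpr hi
        positivity⟩
  omega

theorem vec5_dist {v w : Fin 5 → Fin 3} (hv : ∑ i, (sg (v i)) ^ 2 = 2)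
    (hw : ∑ i, (sg (w i)) ^ 2 = 2) (h : vec5 v ≠ vec5 w) : 2 ≤ dist (vec5 v) (vec5 w) := by
  have hab : (fun i => sg (v i)) ≠ (fun i => sg (w i)) := by
    intro h1
    apply h
    have h2 : v = w := funext (fun i => sg_inj (congrFun h1 i))
    rw [h2]
  have h1 := int_dist hv hw hab
  have h2 : dist (vec5 v) (vec5 w) ^ 2 = 2 * ((∑ i, (sg (v i) - sg (w i)) ^ 2 : ℤ) : ℝ) := by
    rw [dist_eq_norm, EuclideanSpace.real_norm_sq_eq, Int.cast_sum, Finset.mul_sum]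
    apply Finset.sum_congr rfl
    intro i _
    have h3 : (vec5 v - vec5 w) i = Real.sqrt 2 * ((sg (v i) : ℝ) - sg (w i)) := by
      rw [PiLp.sub_apply, vec5_apply, vec5_apply]
      ring
    rw [h3, mul_pow, Real.sq_sqrt (by norm_num)]
    push_cast
    ring
  have h3 : (2 : ℝ) ≤ ((∑ i, (sg (v i) - sg (w i)) ^ 2 : ℤ) : ℝ) := by exact_mod_cast h1
  have h4 : 0 ≤ dist (vec5 v) (vec5 w) := dist_nonneg
  nlinarith

theorem vec5_dist_neg {v w : Fin 5 → Fin 3} (hv : ∑ i, (sg (v i)) ^ 2 = 2)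
    (hw : ∑ i, (sg (w i)) ^ 2 = 2) (h : vec5 v ≠ -vec5 w) : 2 ≤ dist (vec5 v) (-vec5 w) := by
  have hab : (fun i => sg (v i)) ≠ (fun i => -sg (w i)) := by
    intro h1
    apply h
    ext i
    have h2 : sg (v i) = -sg (w i) := congrFun h1 i
    rw [PiLp.neg_apply, vec5_apply, vec5_apply, h2]
    push_cast
    ring
  have h1 := int_dist hv (b := fun i => -sg (w i)) (by simpa using hw) hab
  have h2 : dist (vec5 v) (-vec5 w) ^ 2 = 2 * ((∑ i, (sg (v i) - -sg (w i)) ^ 2 : ℤ) : ℝ) := by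
    rw [dist_eq_norm, EuclideanSpace.real_norm_sq_eq, Int.cast_sum, Finset.mul_sum]
    apply Finset.sum_congr rfl
    intro i _
    have h3 : (vec5 v - -vec5 w) i = Real.sqrt 2 * ((sg (v i) : ℝ) + sg (w i)) := by
      rw [PiLp.sub_apply, PiLp.neg_apply, vec5_apply, vec5_apply]
      ring
    rw [h3, mul_pow, Real.sq_sqrt (by norm_num)]
    push_cast
    ring
  have h3 : (2 : ℝ) ≤ ((∑ i, (sg (v i) - -sg (w i)) ^ 2 : ℤ) : ℝ) := by exact_mod_cast h1
  have h4 : 0 ≤ dist (vec5 v) (-vec5 w) := dist_nonneg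
  nlinarith

/-- The half of the root system as a configuration of `32` points. -/
theorem dfive : ∃ S : Finset (EuclideanSpace ℝ (Fin 5)), S.card = 32 ∧ (∀ c ∈ S, ‖c‖ = 2) ∧
    (∀ c ∈ S, ∀ d ∈ S, c ≠ d → 2 ≤ dist c d) ∧
    (∀ c ∈ S, ∀ d ∈ S, c ≠ -d → 2 ≤ dist c (-d)) ∧
    ∃ u : EuclideanSpace ℝ (Fin 5), ‖u‖ = 1 ∧ ∀ c ∈ S, 0 ≤ (inner ℝ c u : ℝ) := by
  classical
  refine ⟨V5.image vec5, ?_, ?_, ?_, ?_, EuclideanSpace.single 0 1, ?_, ?_⟩
  · rw [Finset.card_image_of_injective _ vec5_inj, card_V5]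
  · intro c hc
    obtain ⟨v, hv, rfl⟩ := Finset.mem_image.mp hc
    exact vec5_norm (Finset.mem_filter.mp hv).2.1
  · intro c hc d hd h
    obtain ⟨v, hv, rfl⟩ := Finset.mem_image.mp hc
    obtain ⟨w, hw, rfl⟩ := Finset.mem_image.mp hd
    exact vec5_dist (Finset.mem_filter.mp hv).2.1 (Finset.mem_filter.mp hw).2.1 h
  · intro c hc d hd h
    obtain ⟨v, hv, rfl⟩ := Finset.mem_image.mp hc
    obtain ⟨w, hw, rfl⟩ := Finset.mem_image.mp hd
    exact vec5_dist_neg (Finset.mem_filter.mp hv).2.1 (Finset.mem_filter.mp hw).2.1 h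
  · simp
  · intro c hc
    obtain ⟨v, hv, rfl⟩ := Finset.mem_image.mp hc
    have h1 := (Finset.mem_filter.mp hv).2.2
    rw [EuclideanSpace.inner_single_right]
    simp only [one_mul, conj_trivial, vec5_apply]
    have h2 : (0 : ℝ) ≤ (sg (v 0) : ℝ) := by exact_mod_cast h1
    positivity

end KissLP
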