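import Pool.Agent.Lib.KissLP.Dim5

/-!
# One-sided kissing configurations in dimension 24, even kernels
-/

set_option autoImplicit false

open Module

noncomputable section

namespace KissLP

theorem g24_2 (t : ℝ) : gk 24 t 1 2 = 24 / 23 * t ^ 2 - 1 / 23 := by
  simp only [gk]
  norm_num
  ring

theorem g24_3 (t : ℝ) : gk 24 t 1 3 = 26 / 23 * t ^ 3 - 3 / 23 * t := by
  rw [gk, g24_2]
  simp only [gk]
  norm_num
  ring

theorem g24_4 (t : ℝ) : gk 24 t 1 4 = 728 / 575 * t ^ 4 - 156 / 575 * t ^ 2 + 3 / 575 := by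
  rw [gk, g24_3, g24_2]
  norm_num
  ring

theorem g24_5 (t : ℝ) : gk 24 t 1 5 = 168 / 115 * t ^ 5 - 56 / 115 * t ^ 3 + 3 / 115 * t := by
  rw [gk, g24_4, g24_3]
  norm_num
  ring

theorem g24_6 (t : ℝ) : gk 24 t 1 6 = 1792 / 1035 * t ^ 6 - 56 / 69 * t ^ 4 + 28 / 345 * t ^ 2 -
    1 / 1035 := by
  rw [gk, g24_5, g24_4]
  norm_num
  ring

theorem g24_7 (t : ℝ) : gk 24 t 1 7 = 2176 / 1035 * t ^ 7 - 448 / 345 * t ^ 5 + 14 / 69 * t ^ 3 -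
    7 / 1035 * t := by
  rw [gk, g24_6, g24_5]
  norm_num
  ring

theorem g24_8 (t : ℝ) : gk 24 t 1 8 = 8704 / 3335 * t ^ 8 - 60928 / 30015 * t ^ 6 +
    896 / 2001 * t ^ 4 - 56 / 2001 * t ^ 2 + 7 / 30015 := by
  rw [gk, g24_7, g24_6]
  norm_num
  ring

theorem g24_9 (t : ℝ) : gk 24 t 1 9 = 165376 / 50025 * t ^ 9 - 52224 / 16675 * t ^ 7 +
    15232 / 16675 * t ^ 5 - 896 / 10005 * t ^ 3 + 7 / 3335 * t := by
  rw [gk, g24_8, g24_7]
  norm_num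
  ring

theorem g24_10 (t : ℝ) : gk 24 t 1 10 = 1323008 / 310155 * t ^ 10 - 496128 / 103385 * t ^ 8 +
    182784 / 103385 * t ^ 6 - 15232 / 62031 * t ^ 4 + 224 / 20677 * t ^ 2 - 7 / 103385 := by
  rw [gk, g24_9, g24_8]
  norm_num
  ring

theorem g23_2 (t : ℝ) : gk 23 t 1 2 = 23 / 22 * t ^ 2 - 1 / 22 := by
  simp only [gk]
  norm_num
  ring

theorem g23_3 (t : ℝ) : gk 23 t 1 3 = 25 / 22 * t ^ 3 - 3 / 22 * t := by
  rw [gk, g23_2]
  simp only [gk]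
  norm_num
  ring

theorem g23_4 (t : ℝ) : gk 23 t 1 4 = 225 / 176 * t ^ 4 - 25 / 88 * t ^ 2 + 1 / 176 := by
  rw [gk, g23_3, g23_2]
  norm_num
  ring

theorem g23_5 (t : ℝ) : gk 23 t 1 5 = 261 / 176 * t ^ 5 - 45 / 88 * t ^ 3 + 5 / 176 * t := by
  rw [gk, g23_4, g23_3]
  norm_num
  ring

theorem g23_6 (t : ℝ) : gk 23 t 1 6 = 8091 / 4576 * t ^ 6 - 3915 / 4576 * t ^ 4 +
    405 / 4576 * t ^ 2 - 5 / 4576 := by
  rw [gk, g23_5, g23_4]
  norm_num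
  ring

theorem g23_7 (t : ℝ) : gk 23 t 1 7 = 899 / 416 * t ^ 7 - 6293 / 4576 * t ^ 5 +
    1015 / 4576 * t ^ 3 - 35 / 4576 * t := by
  rw [gk, g23_6, g23_5]
  norm_num
  ring

theorem g23_8 (t : ℝ) : gk 23 t 1 8 = 4495 / 1664 * t ^ 8 - 899 / 416 * t ^ 6 +
    4495 / 9152 * t ^ 4 - 145 / 4576 * t ^ 2 + 5 / 18304 := by
  rw [gk, g23_7, g23_6]
  norm_num
  ring

/-- Coefficients of `t² (t² - 1/16)² (t² - 1/4)` in dimension 24. -/
def c24 : ℕ → ℝ := fun k => if k = 0 then 5 / 745472 else if k = 2 then 115 / 57344 else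
  if k = 4 then 32775 / 792064 else if k = 6 then 3335 / 14336 else
  if k = 8 then 3335 / 8704 else 0

/-- Coefficients of `t² (t² - 9/145)² (t² - 1/4)` in dimension 23. -/
def c23 : ℕ → ℝ := fun k => if k = 0 then 1292 / 108804375 else
  if k = 2 then 11528 / 4652325 else if k = 4 then 6783076 / 146649375 else
  if k = 6 then 282568 / 1173195 else if k = 8 then 1664 / 4495 else 0

/-- Coefficients of `t² (t² - 1/16) (t² - 1/4)` in dimension 23. -/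
def d23 : ℕ → ℝ := fun k => if k = 0 then 1 / 66240 else
  if k = 2 then 671 / 192096 else if k = 4 then 187 / 1395 else
  if k = 6 then 4576 / 8091 else 0

theorem exp24 (t : ℝ) : ∑ k ∈ Finset.range (8 + 1), c24 k * gk 24 t 1 k =
    t ^ 2 * (t ^ 2 - 1 / 16) ^ 2 * (t ^ 2 - 1 / 4) := by
  simp only [Finset.sum_range_succ, Finset.sum_range_zero, g24_2, g24_3, g24_4, g24_5, g24_6,
    g24_7, g24_8, c24]
  norm_num [gk]
  ring

theorem exp23 (t : ℝ) : ∑ k ∈ Finset.range (8 + 1), c23 k * gk 23 t 1 k =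
    t ^ 2 * (t ^ 2 - 9 / 145) ^ 2 * (t ^ 2 - 1 / 4) := by
  simp only [Finset.sum_range_succ, Finset.sum_range_zero, g23_2, g23_3, g23_4, g23_5, g23_6,
    g23_7, g23_8, c23]
  norm_num [gk]
  ring

theorem dxp23 (t : ℝ) : ∑ k ∈ Finset.range (6 + 1), d23 k * gk 23 t 1 k =
    t ^ 2 * (t ^ 2 - 1 / 16) * (t ^ 2 - 1 / 4) := by
  simp only [Finset.sum_range_succ, Finset.sum_range_zero, g23_2, g23_3, g23_4, g23_5, g23_6,
    d23]
  norm_num [gk]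
  ring

theorem c24_nonneg (k : ℕ) : 0 ≤ c24 k := by
  unfold c24
  split_ifs <;> norm_num

theorem c23_nonneg (k : ℕ) : 0 ≤ c23 k := by
  unfold c23
  split_ifs <;> norm_num

theorem d23_nonneg (k : ℕ) : 0 ≤ d23 k := by
  unfold d23
  split_ifs <;> norm_num

theorem F8_nonpos (b : ℝ) {t : ℝ} (h : |t| ≤ 1 / 2) :
    t ^ 2 * (t ^ 2 - b) ^ 2 * (t ^ 2 - 1 / 4) ≤ 0 := by
  rw [abs_le] at h
  have h3 : t ^ 2 ≤ 1 / 4 := by nlinarith [h.1, h.2]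
  exact mul_nonpos_of_nonneg_of_nonpos (by positivity) (by linarith)

theorem F8_le {b : ℝ} (hb0 : 0 ≤ b) (hb : b ≤ 1 / 2) {t : ℝ} (h1 : -1 ≤ t) (h2 : t ≤ 1) :
    t ^ 2 * (t ^ 2 - b) ^ 2 * (t ^ 2 - 1 / 4) ≤ (1 - b) ^ 2 * (3 / 4) := by
  have h3 : t ^ 2 ≤ 1 := by nlinarith
  have h4 : 0 ≤ t ^ 2 := sq_nonneg t
  by_cases h5 : t ^ 2 ≤ 1 / 4
  · have h6 : t ^ 2 * (t ^ 2 - b) ^ 2 * (t ^ 2 - 1 / 4) ≤ 0 :=
      mul_nonpos_of_nonneg_of_nonpos (by positivity) (by linarith)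
    have h7 : 0 ≤ (1 - b) ^ 2 * (3 / 4) := by positivity
    linarith
  · push Not at h5
    have h6 : (t ^ 2 - b) ^ 2 ≤ (1 - b) ^ 2 := by
      apply sq_le_sq'
      · linarith
      · linarith
    have h7 : t ^ 2 * (t ^ 2 - b) ^ 2 ≤ 1 * (1 - b) ^ 2 :=
      mul_le_mul h3 h6 (sq_nonneg _) (by norm_num)
    calc t ^ 2 * (t ^ 2 - b) ^ 2 * (t ^ 2 - 1 / 4) ≤ 1 * (1 - b) ^ 2 * (3 / 4) :=
          mul_le_mul h7 (by linarith) (by linarith) (by positivity)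
      _ = (1 - b) ^ 2 * (3 / 4) := by ring

variable {E : Type} [NormedAddCommGroup E] [InnerProductSpace ℝ E]

/-- The quadratic inequality in dimension 24. -/
theorem dim24_quad [FiniteDimensional ℝ E] (hE : finrank ℝ E = 24) {K : Finset E}
    (hu : ∀ x ∈ K, ‖x‖ = 1)
    (hs : ∀ x ∈ K, ∀ y ∈ K, x ≠ y → inner ℝ x y ≤ (1 / 2 : ℝ)) :
    (K.card - ((anti K).card : ℝ) / 2) ^ 2 ≤
      98280 * ((K.card - ((anti K).card : ℝ) / 2) + ((conf K).card : ℝ)) :=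
  whole_bound hu hs (pd_full (by norm_num) hE K hu) 8 c24 c24_nonneg
    (fun t => t ^ 2 * (t ^ 2 - 1 / 16) ^ 2 * (t ^ 2 - 1 / 4)) exp24 (675 / 1024) 98280
    (by norm_num) (by norm_num) (by norm_num)
    (fun t h1 h2 => (F8_le (by norm_num) (by norm_num) h1 (by linarith)).trans (by norm_num))
    (fun x _ y _ h => F8_nonpos _ h) (by norm_num [c24])

/-- At most 55563 antipodal pairs in dimension 24. -/
theorem dim24_anti [FiniteDimensional ℝ E] (hE : finrank ℝ E = 24) {K : Finset E}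
    (hu : ∀ x ∈ K, ‖x‖ = 1)
    (hs : ∀ x ∈ K, ∀ y ∈ K, x ≠ y → inner ℝ x y ≤ (1 / 2 : ℝ)) {u : E} (hu0 : u ≠ 0)
    (ho : ∀ x ∈ K, 0 ≤ (inner ℝ x u : ℝ)) : ((anti K).card : ℝ) / 2 ≤ 1055700 / 19 := by
  have hP : PD 23 (anti K) := pd_hyper (by norm_num) hE hu0 (anti K)
    (fun x hx => hu x (mem_anti.mp hx).1) (anti_orth ho)
  exact anti_bound hu hs hP 8 c23 c23_nonneg
    (fun t => t ^ 2 * (t ^ 2 - 9 / 145) ^ 2 * (t ^ 2 - 1 / 4)) exp23 (13872 / 21025) (1055700 / 19)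
    (by norm_num) (by norm_num) (by norm_num)
    (fun t h1 h2 => (F8_le (by norm_num) (by norm_num) h1 (by linarith)).trans (by norm_num))
    (fun x _ y _ h => F8_nonpos _ h) (by norm_num [c23])

/-- At most 46575 antipodal pairs if the inner products are those of the Leech lattice. -/
theorem dim24_anti_int [FiniteDimensional ℝ E] (hE : finrank ℝ E = 24) {K : Finset E}
    (hu : ∀ x ∈ K, ‖x‖ = 1)
    (hs : ∀ x ∈ K, ∀ y ∈ K, x ≠ y → inner ℝ x y ≤ (1 / 2 : ℝ)) {u : E} (hu0 : u ≠ 0)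
    (ho : ∀ x ∈ K, 0 ≤ (inner ℝ x u : ℝ))
    (hi : ∀ x ∈ K, ∀ y ∈ K, |(inner ℝ x y : ℝ)| ≤ 1 / 2 → (inner ℝ x y : ℝ) ^ 2 = 0 ∨
      (inner ℝ x y : ℝ) ^ 2 = 1 / 16 ∨ (inner ℝ x y : ℝ) ^ 2 = 1 / 4) :
    ((anti K).card : ℝ) / 2 ≤ 46575 := by
  have hP : PD 23 (anti K) := pd_hyper (by norm_num) hE hu0 (anti K)
    (fun x hx => hu x (mem_anti.mp hx).1) (anti_orth ho)
  refine anti_bound hu hs hP 6 d23 d23_nonneg
    (fun t => t ^ 2 * (t ^ 2 - 1 / 16) * (t ^ 2 - 1 / 4)) dxp23 (45 / 64) 46575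
    (by norm_num) (by norm_num) (by norm_num) ?_ ?_ (by norm_num [d23])
  · intro t h1 h2
    have h3 : t ^ 2 ≤ 1 := by nlinarith
    have h4 : 1 / 4 ≤ t ^ 2 := by nlinarith
    calc t ^ 2 * (t ^ 2 - 1 / 16) * (t ^ 2 - 1 / 4) ≤ 1 * (15 / 16) * (3 / 4) :=
          mul_le_mul (mul_le_mul h3 (by linarith) (by linarith) (by norm_num)) (by linarith)
            (by linarith) (by norm_num)
      _ ≤ 45 / 64 := by norm_num
  · intro x hx y hy h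
    rcases hi x (mem_anti.mp hx).1 y (mem_anti.mp hy).1 h with h5 | h5 | h5 <;>
      simp only [h5] <;> norm_num

theorem dim24_sym [FiniteDimensional ℝ E] (hE : finrank ℝ E = 24) {K : Finset E}
    (hu : ∀ x ∈ K, ‖x‖ = 1)
    (hs : ∀ x ∈ K, ∀ y ∈ K, x ≠ y → inner ℝ x y ≤ (1 / 2 : ℝ)) {u : E} (hu0 : u ≠ 0)
    (ho : ∀ x ∈ K, 0 ≤ (inner ℝ x u : ℝ)) (hc : conf K = ∅) : K.card ≤ 153843 := by
  have h1 := dim24_anti hE hu hs hu0 ho
  have h2 := dim24_quad hE hu hs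
  rw [hc, Finset.card_empty, Nat.cast_zero, add_zero] at h2
  have h3 : (K.card : ℝ) - ((anti K).card : ℝ) / 2 ≤ 98280 := by
    by_contra h4
    push Not at h4
    nlinarith
  have h4 : (K.card : ℝ) < 153844 := by
    have : (1055700 / 19 : ℝ) < 55564 := by norm_num
    linarith
  have h5 : K.card < 153844 := by exact_mod_cast h4
  omega

theorem dim24_int [FiniteDimensional ℝ E] (hE : finrank ℝ E = 24) {K : Finset E}
    (hu : ∀ x ∈ K, ‖x‖ = 1)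
    (hs : ∀ x ∈ K, ∀ y ∈ K, x ≠ y → inner ℝ x y ≤ (1 / 2 : ℝ)) {u : E} (hu0 : u ≠ 0)
    (ho : ∀ x ∈ K, 0 ≤ (inner ℝ x u : ℝ)) (hc : conf K = ∅)
    (hi : ∀ x ∈ K, ∀ y ∈ K, |(inner ℝ x y : ℝ)| ≤ 1 / 2 → (inner ℝ x y : ℝ) ^ 2 = 0 ∨
      (inner ℝ x y : ℝ) ^ 2 = 1 / 16 ∨ (inner ℝ x y : ℝ) ^ 2 = 1 / 4) : K.card ≤ 144855 := by
  have h1 := dim24_anti_int hE hu hs hu0 ho hi
  have h2 := dim24_quad hE hu hs
  rw [hc, Finset.card_empty, Nat.cast_zero, add_zero] at h2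
  have h3 : (K.card : ℝ) - ((anti K).card : ℝ) / 2 ≤ 98280 := by
    by_contra h4
    push Not at h4
    nlinarith
  have h4 : (K.card : ℝ) ≤ 144855 := by linarith
  exact_mod_cast h4

end KissLP
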