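import Pool.Agent.Lib.KissLP.LP

/-!
# One-sided kissing configurations in dimension five
-/

set_option autoImplicit false

open Module

noncomputable section

namespace KissLP

/-- Coefficients of `t² (t² - 1/4)` in dimension five. -/
def c5 : ℕ → ℝ := fun k => if k = 0 then 1 / 28 else if k = 2 then 1 / 3 else
  if k = 4 then 8 / 21 else 0

/-- Coefficients of `t² (t² - 1/4)` in dimension four. -/
def c4 : ℕ → ℝ := fun k => if k = 0 then 1 / 16 else if k = 2 then 3 / 8 else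
  if k = 4 then 5 / 16 else 0

theorem exp5 (t : ℝ) : ∑ k ∈ Finset.range (4 + 1), c5 k * gk 5 t 1 k = t ^ 2 * (t ^ 2 - 1 / 4) := by
  simp only [Finset.sum_range_succ, Finset.sum_range_zero, c5, gk]
  norm_num
  ring

theorem exp4 (t : ℝ) : ∑ k ∈ Finset.range (4 + 1), c4 k * gk 4 t 1 k = t ^ 2 * (t ^ 2 - 1 / 4) := by
  simp only [Finset.sum_range_succ, Finset.sum_range_zero, c4, gk]
  norm_num
  ring

theorem c5_nonneg (k : ℕ) : 0 ≤ c5 k := by
  unfold c5
  split_ifs <;> norm_num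

theorem c4_nonneg (k : ℕ) : 0 ≤ c4 k := by
  unfold c4
  split_ifs <;> norm_num

variable {E : Type} [NormedAddCommGroup E] [InnerProductSpace ℝ E]

theorem F4_le {t : ℝ} (h1 : -1 ≤ t) (h2 : t ≤ 1) : t ^ 2 * (t ^ 2 - 1 / 4) ≤ 3 / 4 := by
  have h3 : t ^ 2 ≤ 1 := by nlinarith
  have h4 : 0 ≤ t ^ 2 := sq_nonneg t
  nlinarith

theorem F4_nonpos {t : ℝ} (h : |t| ≤ 1 / 2) : t ^ 2 * (t ^ 2 - 1 / 4) ≤ 0 := by
  rw [abs_le] at h
  have h3 : t ^ 2 ≤ 1 / 4 := by nlinarith [h.1, h.2]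
  have h4 : 0 ≤ t ^ 2 := sq_nonneg t
  nlinarith

/-- The antipodal part of a one-sided configuration is orthogonal to the pole. -/
theorem anti_orth {K : Finset E} {u : E} (h : ∀ x ∈ K, 0 ≤ (inner ℝ x u : ℝ)) :
    ∀ x ∈ anti K, (inner ℝ x u : ℝ) = 0 := by
  classical
  intro x hx
  unfold anti at hx
  rw [Finset.mem_filter] at hx
  have h1 := h x hx.1
  have h2 := h (-x) hx.2
  rw [inner_neg_left] at h2
  linarith

theorem mem_anti {K : Finset E} {x : E} : x ∈ anti K ↔ x ∈ K ∧ -x ∈ K := by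
  classical
  unfold anti
  rw [Finset.mem_filter]

theorem conf_anti {K : Finset E} (hu : ∀ x ∈ K, ‖x‖ = 1)
    (hs : ∀ x ∈ K, ∀ y ∈ K, x ≠ y → inner ℝ x y ≤ (1 / 2 : ℝ)) : conf (anti K) = ∅ := by
  classical
  rw [Finset.eq_empty_iff_forall_notMem]
  rintro ⟨x, y⟩ h
  unfold conf at h
  rw [Finset.mem_filter, Finset.mem_product, mem_anti, mem_anti] at h
  obtain ⟨⟨⟨hx, _⟩, ⟨hy, hy'⟩⟩, h1, h2⟩ := h
  simp only at hx hy hy' h1 h2
  by_cases hxy : x = -y
  · rw [hxy, inner_neg_left, real_inner_self_eq_norm_sq, hu y hy] at h1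
    norm_num at h1
  · have := hs x hx (-y) hy' hxy
    rw [inner_neg_right] at this
    linarith

theorem anti_anti (K : Finset E) : anti (anti K) = anti K := by
  ext x
  rw [mem_anti, mem_anti, mem_anti, neg_neg]
  tauto

/-- The inequality for the part of the equator. -/
theorem anti_bound {K : Finset E} (hu : ∀ x ∈ K, ‖x‖ = 1)
    (hs : ∀ x ∈ K, ∀ y ∈ K, x ≠ y → inner ℝ x y ≤ (1 / 2 : ℝ)) {n : ℕ} (hP : PD n (anti K))
    (d : ℕ) (c : ℕ → ℝ) (hc : ∀ k, 0 ≤ c k) (F : ℝ → ℝ)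
    (hF : ∀ t, ∑ k ∈ Finset.range (d + 1), c k * gk n t 1 k = F t) (M L : ℝ) (hM : 0 < M)
    (h1 : F 1 = M) (h2 : F (-1) = M) (h3 : ∀ t, -1 ≤ t → t ≤ -(1 / 2) → F t ≤ M)
    (h4 : ∀ x ∈ anti K, ∀ y ∈ anti K, |(inner ℝ x y : ℝ)| ≤ 1 / 2 → F (inner ℝ x y) ≤ 0)
    (hL : M = c 0 * L) : ((anti K).card : ℝ) / 2 ≤ L := by
  have hsub : ∀ x ∈ anti K, x ∈ K := fun x hx => (mem_anti.mp hx).1
  have h5 := upper_even (anti K) (fun x hx => hu x (hsub x hx))
    (fun x hx y hy => hs x (hsub x hx) y (hsub y hy)) F M hM.le h1 h2 h3 h4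
  have h6 := hP.lower (wt (anti K)) d c hc
  simp only [hF] at h6
  have h7 := h6.trans h5
  rw [conf_anti hu hs, sum_wt, anti_anti] at h7
  simp only [Finset.card_empty, Nat.cast_zero, add_zero] at h7
  have h8 : ((anti K).card : ℝ) - ((anti K).card : ℝ) / 2 = ((anti K).card : ℝ) / 2 := by ring
  rw [h8] at h7
  set W : ℝ := ((anti K).card : ℝ) / 2 with hW
  have hW0 : 0 ≤ W := by positivity
  rcases hW0.eq_or_lt with h9 | h9
  · rw [← h9]
    by_contra h10
    push Not at h10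
    have h11 : 0 ≤ c 0 := hc 0
    nlinarith
  · have hc0 : 0 ≤ c 0 := hc 0
    have hc1 : 0 < c 0 := by
      rcases hc0.eq_or_lt with h10 | h10
      · rw [← h10, zero_mul] at hL
        linarith
      · exact h10
    have h10 : c 0 * W * W ≤ c 0 * L * W := by
      rw [← hL]
      calc c 0 * W * W = c 0 * W ^ 2 := by ring
        _ ≤ M * W := h7
    have h11 : c 0 * W ≤ c 0 * L := le_of_mul_le_mul_right h10 h9
    exact le_of_mul_le_mul_left h11 hc1

/-- The inequality for the whole configuration. -/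
theorem whole_bound {K : Finset E} (hu : ∀ x ∈ K, ‖x‖ = 1)
    (hs : ∀ x ∈ K, ∀ y ∈ K, x ≠ y → inner ℝ x y ≤ (1 / 2 : ℝ)) {n : ℕ} (hP : PD n K)
    (d : ℕ) (c : ℕ → ℝ) (hc : ∀ k, 0 ≤ c k) (F : ℝ → ℝ)
    (hF : ∀ t, ∑ k ∈ Finset.range (d + 1), c k * gk n t 1 k = F t) (M L : ℝ) (hM : 0 < M)
    (h1 : F 1 = M) (h2 : F (-1) = M) (h3 : ∀ t, -1 ≤ t → t ≤ -(1 / 2) → F t ≤ M)
    (h4 : ∀ x ∈ K, ∀ y ∈ K, |(inner ℝ x y : ℝ)| ≤ 1 / 2 → F (inner ℝ x y) ≤ 0)
    (hL : M = c 0 * L) :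
    (K.card - ((anti K).card : ℝ) / 2) ^ 2 ≤
      L * ((K.card - ((anti K).card : ℝ) / 2) + ((conf K).card : ℝ)) := by
  have h5 := upper_even K hu hs F M hM.le h1 h2 h3 h4
  have h6 := hP.lower (wt K) d c hc
  simp only [hF] at h6
  have h7 := h6.trans h5
  rw [sum_wt, hL] at h7
  have hc1 : 0 < c 0 := by
    rcases (hc 0).eq_or_lt with h10 | h10
    · rw [← h10, zero_mul] at hL
      linarith
    · exact h10
  rw [mul_assoc] at h7
  exact le_of_mul_le_mul_left h7 hc1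

/-- At most twelve antipodal pairs in dimension five. -/
theorem dim5_anti [FiniteDimensional ℝ E] (hE : finrank ℝ E = 5) {K : Finset E}
    (hu : ∀ x ∈ K, ‖x‖ = 1)
    (hs : ∀ x ∈ K, ∀ y ∈ K, x ≠ y → inner ℝ x y ≤ (1 / 2 : ℝ)) {u : E} (hu0 : u ≠ 0)
    (ho : ∀ x ∈ K, 0 ≤ (inner ℝ x u : ℝ)) : (anti K).card ≤ 24 := by
  have hP : PD 4 (anti K) := pd_hyper (by norm_num) hE hu0 (anti K)
    (fun x hx => hu x (mem_anti.mp hx).1) (anti_orth ho)
  have h1 := anti_bound hu hs hP 4 c4 c4_nonneg (fun t => t ^ 2 * (t ^ 2 - 1 / 4)) exp4 (3 / 4) 12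
    (by norm_num) (by norm_num) (by norm_num)
    (fun t h1 h2 => F4_le h1 (by linarith)) (fun x _ y _ h => F4_nonpos h) (by norm_num [c4])
  have h2 : ((anti K).card : ℝ) ≤ 24 := by linarith
  exact_mod_cast h2

/-- The quadratic inequality in dimension five. -/
theorem dim5_quad [FiniteDimensional ℝ E] (hE : finrank ℝ E = 5) {K : Finset E}
    (hu : ∀ x ∈ K, ‖x‖ = 1)
    (hs : ∀ x ∈ K, ∀ y ∈ K, x ≠ y → inner ℝ x y ≤ (1 / 2 : ℝ)) :
    (K.card - ((anti K).card : ℝ) / 2) ^ 2 ≤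
      21 * ((K.card - ((anti K).card : ℝ) / 2) + ((conf K).card : ℝ)) :=
  whole_bound hu hs (pd_full (by norm_num) hE K hu) 4 c5 c5_nonneg
    (fun t => t ^ 2 * (t ^ 2 - 1 / 4)) exp5 (3 / 4) 21
    (by norm_num) (by norm_num) (by norm_num)
    (fun t h1 h2 => F4_le h1 (by linarith)) (fun x _ y _ h => F4_nonpos h) (by norm_num [c5])

/-- No tight configuration in dimension five. -/
theorem dim5_not_tight [FiniteDimensional ℝ E] (hE : finrank ℝ E = 5) {K : Finset E}
    (hu : ∀ x ∈ K, ‖x‖ = 1)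
    (hs : ∀ x ∈ K, ∀ y ∈ K, x ≠ y → inner ℝ x y ≤ (1 / 2 : ℝ))
    (hc : conf K = ∅) : ∑ x ∈ K, wt K x ≠ 21 := by
  classical
  intro hW
  have hne : K.Nonempty := by
    by_contra h
    rw [Finset.not_nonempty_iff_eq_empty] at h
    rw [h, Finset.sum_empty] at hW
    norm_num at hW
  obtain ⟨e, he⟩ := hne
  have h5 := upper_even K hu hs (fun t => t ^ 2 * (t ^ 2 - 1 / 4)) (3 / 4)
    (by norm_num) (by norm_num) (by norm_num)
    (fun t h1 h2 => F4_le h1 (by linarith)) (fun x _ y _ h => F4_nonpos h)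
  rw [hc, hW, Finset.card_empty, Nat.cast_zero, add_zero] at h5
  -- the poles
  have hpole := fun k => gk_pole (n := 5) (by norm_num) hE K id (wt K) hu e (hu e he) k
  simp only [id] at hpole
  set S : ℕ → ℝ := fun k => ∑ x ∈ K, ∑ y ∈ K, wt K x * wt K y * gk 5 (inner ℝ x y) 1 k with hS
  have hS0 : S 0 = 21 ^ 2 := by
    simp only [hS, gk, mul_one]
    rw [← hW, sq, Finset.sum_mul_sum]
  have hSn : ∀ k, 0 ≤ S k := fun k => (sq_nonneg _).trans (hpole k)
  have hexp : ∑ x ∈ K, ∑ y ∈ K, wt K x * wt K y *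
      ((inner ℝ x y : ℝ) ^ 2 * ((inner ℝ x y : ℝ) ^ 2 - 1 / 4)) =
      1 / 28 * S 0 + 1 / 3 * S 2 + 8 / 21 * S 4 := by
    simp only [hS, Finset.mul_sum]
    rw [← Finset.sum_add_distrib, ← Finset.sum_add_distrib]
    apply Finset.sum_congr rfl
    intro x _
    rw [← Finset.sum_add_distrib, ← Finset.sum_add_distrib]
    apply Finset.sum_congr rfl
    intro y _
    have h6 := exp5 (inner ℝ x y : ℝ)
    simp only [Finset.sum_range_succ, Finset.sum_range_zero, c5] at h6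
    norm_num at h6
    rw [← h6]
    ring
  rw [hexp, hS0] at h5
  have hS2 : S 2 = 0 := by
    have := hSn 2
    have := hSn 4
    linarith
  have hS4 : S 4 = 0 := by
    have := hSn 2
    have := hSn 4
    linarith
  have hp2 : ∑ a ∈ K, wt K a * gk 5 (inner ℝ a e) 1 2 = 0 := by
    have h6 := hpole 2
    have h7 : S 2 = ∑ x ∈ K, ∑ y ∈ K, wt K x * wt K y * gk 5 (inner ℝ x y) 1 2 := rfl
    rw [← h7, hS2] at h6
    exact pow_eq_zero_iff (two_ne_zero) |>.mp (le_antisymm h6 (sq_nonneg _))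
  have hp4 : ∑ a ∈ K, wt K a * gk 5 (inner ℝ a e) 1 4 = 0 := by
    have h6 := hpole 4
    have h7 : S 4 = ∑ x ∈ K, ∑ y ∈ K, wt K x * wt K y * gk 5 (inner ℝ x y) 1 4 := rfl
    rw [← h7, hS4] at h6
    exact pow_eq_zero_iff (two_ne_zero) |>.mp (le_antisymm h6 (sq_nonneg _))
  -- the row sum of the kernel
  have hrow : ∑ a ∈ K, wt K a * ((inner ℝ a e : ℝ) ^ 2 * ((inner ℝ a e : ℝ) ^ 2 - 1 / 4)) =
      3 / 4 := by
    have h6 : ∀ a ∈ K, wt K a * ((inner ℝ a e : ℝ) ^ 2 * ((inner ℝ a e : ℝ) ^ 2 - 1 / 4)) =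
        1 / 28 * wt K a + 1 / 3 * (wt K a * gk 5 (inner ℝ a e) 1 2) +
        8 / 21 * (wt K a * gk 5 (inner ℝ a e) 1 4) := by
      intro a _
      have h6 := exp5 (inner ℝ a e : ℝ)
      simp only [Finset.sum_range_succ, Finset.sum_range_zero, c5] at h6
      norm_num at h6
      rw [← h6]
      simp only [gk]
      ring
    rw [Finset.sum_congr rfl h6, Finset.sum_add_distrib, Finset.sum_add_distrib,
      ← Finset.mul_sum, ← Finset.mul_sum, ← Finset.mul_sum, hp2, hp4, hW]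
    norm_num
  have hne' : e ≠ -e := by
    intro h
    have h5 : e + e = 0 := by
      nth_rewrite 2 [h]
      simp
    have h6 : (2 : ℝ) • e = 0 := by rw [two_smul, h5]
    rcases smul_eq_zero.mp h6 with h7 | h7
    · norm_num at h7
    · have h8 := hu e he
      rw [h7, norm_zero] at h8
      norm_num at h8
  have hee : (inner ℝ e e : ℝ) = 1 := by
    rw [real_inner_self_eq_norm_sq, hu e he]
    norm_num
  have hle : ∀ a ∈ K, wt K a * ((inner ℝ a e : ℝ) ^ 2 * ((inner ℝ a e : ℝ) ^ 2 - 1 / 4)) ≤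
      (if a = e then wt K a * (3 / 4) else 0) + (if a = -e then wt K a * (3 / 4) else 0) := by
    intro a ha
    have hw := wt_nonneg K a
    by_cases h1 : a = e
    · subst h1
      rw [if_pos rfl, if_neg hne', hee]
      linarith
    · by_cases h2 : a = -e
      · subst h2
        rw [if_neg h1, if_pos rfl, inner_neg_left, hee]
        linarith
      · rw [if_neg h1, if_neg h2, add_zero]
        have h3 : (inner ℝ a e : ℝ) ≤ 1 / 2 := hs a ha e he h1
        have h4 : -1 < (inner ℝ a e : ℝ) := by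
          have h8 : 0 < ‖a + e‖ := by
            rw [norm_pos_iff]
            intro h
            exact h2 (eq_neg_of_add_eq_zero_left h)
          have h9 : ‖a + e‖ ^ 2 = 2 + 2 * inner ℝ a e := by
            rw [norm_add_sq_real, hu a ha, hu e he]
            ring
          nlinarith [pow_pos h8 2]
        have h5 : -(1 / 2 : ℝ) ≤ (inner ℝ a e : ℝ) := by
          by_contra h6
          push Not at h6
          have h7 : (a, e) ∈ conf K := by
            unfold conf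
            rw [Finset.mem_filter, Finset.mem_product]
            exact ⟨⟨ha, he⟩, h4, h6⟩
          rw [hc] at h7
          exact absurd h7 (Finset.notMem_empty _)
        exact mul_nonpos_of_nonneg_of_nonpos hw (F4_nonpos (abs_le.mpr ⟨h5, h3⟩))
  have hsum : ∑ a ∈ K, ((if a = e then wt K a * (3 / 4) else 0) +
      (if a = -e then wt K a * (3 / 4) else 0)) = 3 / 4 := by
    rw [Finset.sum_add_distrib, Finset.sum_ite_eq', Finset.sum_ite_eq', if_pos he]
    by_cases h : -e ∈ K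
    · rw [if_pos h]
      have h7 : wt K e = 1 / 2 := by
        unfold wt
        rw [if_pos h]
      have h8 : wt K (-e) = 1 / 2 := by
        unfold wt
        rw [neg_neg, if_pos he]
      rw [h7, h8]
      norm_num
    · rw [if_neg h]
      have h7 : wt K e = 1 := by
        unfold wt
        rw [if_neg h]
      rw [h7]
      norm_num
  have heq := (Finset.sum_eq_sum_iff_of_le hle).mp (by rw [hrow, hsum])
  have hval : ∀ a ∈ K, (inner ℝ a e : ℝ) ^ 2 = 0 ∨ (inner ℝ a e : ℝ) ^ 2 = 1 / 4 ∨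
      (inner ℝ a e : ℝ) ^ 2 = 1 := by
    intro a ha
    have h1 := heq a ha
    by_cases h2 : a = e
    · right
      right
      rw [h2, hee]
      norm_num
    · by_cases h3 : a = -e
      · right
        right
        rw [h3, inner_neg_left, hee]
        norm_num
      · rw [if_neg h2, if_neg h3, add_zero] at h1
        have hw : 0 < wt K a := by
          unfold wt
          split_ifs <;> norm_num
        rcases mul_eq_zero.mp h1 with h4 | h4
        · exact absurd h4 hw.ne'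
        · rcases mul_eq_zero.mp h4 with h5 | h5
          · left
            exact h5
          · right
            left
            linarith
  have hint : ∀ a ∈ K, ∃ z : ℤ, 8 * (wt K a * (inner ℝ a e : ℝ) ^ 2) = z := by
    intro a ha
    have hw : wt K a = 1 / 2 ∨ wt K a = 1 := by
      unfold wt
      split_ifs
      · left; rfl
      · right; rfl
    rcases hw with hw | hw <;> rcases hval a ha with h | h | h <;> rw [hw, h]
    · exact ⟨0, by norm_num⟩
    · exact ⟨1, by norm_num⟩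
    · exact ⟨4, by norm_num⟩
    · exact ⟨0, by norm_num⟩
    · exact ⟨2, by norm_num⟩
    · exact ⟨8, by norm_num⟩
  choose! z hz using hint
  have h6 : ∑ a ∈ K, 8 * (wt K a * (inner ℝ a e : ℝ) ^ 2) = 168 / 5 := by
    have h7 : ∀ a ∈ K, 8 * (wt K a * (inner ℝ a e : ℝ) ^ 2) =
        32 / 5 * (wt K a * gk 5 (inner ℝ a e) 1 2) + 8 / 5 * wt K a := by
      intro a _
      simp only [gk]
      norm_num
      ring
    rw [Finset.sum_congr rfl h7, Finset.sum_add_distrib, ← Finset.mul_sum, ← Finset.mul_sum, hp2,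
      hW]
    norm_num
  rw [Finset.sum_congr rfl hz, ← Int.cast_sum] at h6
  have h7 : (5 * ∑ a ∈ K, z a : ℤ) = 168 := by
    have h8 : ((5 * ∑ a ∈ K, z a : ℤ) : ℝ) = 168 := by
      push_cast
      push_cast at h6
      rw [h6]
      norm_num
    exact_mod_cast h8
  omega

/-- The symmetric case in dimension five. -/
theorem dim5_sym [FiniteDimensional ℝ E] (hE : finrank ℝ E = 5) {K : Finset E}
    (hu : ∀ x ∈ K, ‖x‖ = 1)
    (hs : ∀ x ∈ K, ∀ y ∈ K, x ≠ y → inner ℝ x y ≤ (1 / 2 : ℝ)) {u : E} (hu0 : u ≠ 0)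
    (ho : ∀ x ∈ K, 0 ≤ (inner ℝ x u : ℝ)) (hc : conf K = ∅) : K.card ≤ 32 := by
  by_contra hcon
  push Not at hcon
  have h1 := dim5_anti hE hu hs hu0 ho
  have h2 := dim5_quad hE hu hs
  have h3 := dim5_not_tight hE hu hs hc
  rw [sum_wt] at h3
  rw [hc, Finset.card_empty, Nat.cast_zero, add_zero] at h2
  have h4 : (33 : ℝ) ≤ K.card := by exact_mod_cast hcon
  have h5 : ((anti K).card : ℝ) ≤ 24 := by exact_mod_cast h1
  apply h3
  have h6 : (21 : ℝ) ≤ (K.card : ℝ) - ((anti K).card : ℝ) / 2 := by linarith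
  nlinarith

end KissLP
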