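import Mathlib

/-!
# The Fischer form and zonal harmonic polynomials

Positive definiteness of the Gegenbauer kernels in dimension `n ≥ 2`, for arbitrary vectors.
-/

set_option autoImplicit false

open MvPolynomial

noncomputable section

namespace KissLP

variable {n : ℕ}

/-- Factorial of a multi-index. -/
def mfac (m : Fin n →₀ ℕ) : ℝ := ∏ i, ((m i).factorial : ℝ)

theorem mfac_pos (m : Fin n →₀ ℕ) : 0 < mfac m :=
  Finset.prod_pos (fun i _ => by exact_mod_cast Nat.factorial_pos _)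

theorem mfac_add_single (m : Fin n →₀ ℕ) (i : Fin n) :
    mfac (m + Finsupp.single i 1) = mfac m * (m i + 1) := by
  unfold mfac
  rw [← Finset.mul_prod_erase Finset.univ _ (Finset.mem_univ i),
    ← Finset.mul_prod_erase Finset.univ (fun j => ((m j).factorial : ℝ)) (Finset.mem_univ i)]
  have h1 : ∏ x ∈ Finset.univ.erase i, ((((m + Finsupp.single i 1 : Fin n →₀ ℕ) x).factorial : ℕ) : ℝ) =
      ∏ x ∈ Finset.univ.erase i, ((m x).factorial : ℝ) := by
    apply Finset.prod_congr rfl
    intro x hx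
    have hxi : i ≠ x := fun h => (Finset.mem_erase.mp hx).1 h.symm
    rw [Finsupp.add_apply, Finsupp.single_eq_of_ne (Ne.symm hxi), add_zero]
  rw [h1, Finsupp.add_apply, Finsupp.single_eq_same, Nat.factorial_succ]
  push_cast
  ring

/-- The Fischer form. -/
def fis : MvPolynomial (Fin n) ℝ →ₗ[ℝ] MvPolynomial (Fin n) ℝ →ₗ[ℝ] ℝ :=
  (basisMonomials (Fin n) ℝ).constr ℝ (fun m => mfac m • lcoeff ℝ m)

theorem fis_monomial (m : Fin n →₀ ℕ) (a : ℝ) (q : MvPolynomial (Fin n) ℝ) :
    fis (monomial m a) q = a * (mfac m * coeff m q) := by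
  have h1 : monomial m a = a • (basisMonomials (Fin n) ℝ) m := by
    rw [coe_basisMonomials, smul_monomial, smul_eq_mul, mul_one]
  rw [h1, map_smul, LinearMap.smul_apply]
  unfold fis
  rw [Module.Basis.constr_basis]
  simp

theorem fis_self_nonneg (p : MvPolynomial (Fin n) ℝ) : 0 ≤ fis p p := by
  have h1 : fis p p = ∑ m ∈ p.support, fis (monomial m (coeff m p)) p := by
    conv_lhs => rw [congrArg fis (as_sum p)]
    rw [map_sum, LinearMap.sum_apply]
  rw [h1]
  apply Finset.sum_nonneg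
  intro m _
  rw [fis_monomial]
  have h2 := mfac_pos m
  nlinarith [mul_nonneg h2.le (mul_self_nonneg (coeff m p))]

theorem fis_X_mul (i : Fin n) (p q : MvPolynomial (Fin n) ℝ) :
    fis (X i * p) q = fis p (pderiv i q) := by
  induction p using MvPolynomial.induction_on' with
  | add p r hp hr => rw [mul_add, map_add, map_add, LinearMap.add_apply, LinearMap.add_apply, hp, hr]
  | monomial m a =>
    have h1 : (X i * monomial m a : MvPolynomial (Fin n) ℝ) =
        monomial (m + Finsupp.single i 1) a := by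
      rw [X, monomial_mul, one_mul, add_comm]
    rw [h1, fis_monomial, fis_monomial, mfac_add_single, coeff_pderiv]
    ring

theorem fis_C_mul (c : ℝ) (p q : MvPolynomial (Fin n) ℝ) : fis (C c * p) q = c * fis p q := by
  rw [C_mul', map_smul, LinearMap.smul_apply, smul_eq_mul]

theorem fis_one (q : MvPolynomial (Fin n) ℝ) : fis 1 q = coeff 0 q := by
  have h1 : (1 : MvPolynomial (Fin n) ℝ) = monomial 0 1 := rfl
  rw [h1, fis_monomial]
  have h2 : mfac (0 : Fin n →₀ ℕ) = 1 := by simp [mfac]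
  rw [h2]
  ring

/-- The linear form of `y`. -/
def lin (y : Fin n → ℝ) : MvPolynomial (Fin n) ℝ := ∑ i, C (y i) * X i

/-- The sum of the squares of the variables. -/
def rho : MvPolynomial (Fin n) ℝ := ∑ i, X i * X i

/-- Directional derivative. -/
def dir (y : Fin n → ℝ) (p : MvPolynomial (Fin n) ℝ) : MvPolynomial (Fin n) ℝ :=
  ∑ i, C (y i) * pderiv i p

/-- Euler operator. -/
def eul (p : MvPolynomial (Fin n) ℝ) : MvPolynomial (Fin n) ℝ := ∑ i, X i * pderiv i p

/-- Laplace operator. -/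
def lap (p : MvPolynomial (Fin n) ℝ) : MvPolynomial (Fin n) ℝ := ∑ i, pderiv i (pderiv i p)

theorem fis_lin_mul (y : Fin n → ℝ) (p q : MvPolynomial (Fin n) ℝ) :
    fis (lin y * p) q = fis p (dir y q) := by
  unfold lin dir
  rw [Finset.sum_mul, map_sum, LinearMap.sum_apply, map_sum]
  apply Finset.sum_congr rfl
  intro i _
  rw [mul_assoc, fis_C_mul, fis_X_mul, C_mul', map_smul, smul_eq_mul]

theorem fis_rho_mul (p q : MvPolynomial (Fin n) ℝ) : fis (rho * p) q = fis p (lap q) := by
  unfold rho lap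
  rw [Finset.sum_mul, map_sum, LinearMap.sum_apply, map_sum]
  apply Finset.sum_congr rfl
  intro i _
  rw [mul_assoc, fis_X_mul, fis_X_mul]

theorem pderiv_lin (y : Fin n → ℝ) (i : Fin n) : pderiv i (lin y) = C (y i) := by
  unfold lin
  rw [map_sum, Finset.sum_eq_single i]
  · rw [pderiv_C_mul, pderiv_X_self, mul_one]
  · intro j _ hj
    rw [pderiv_C_mul, pderiv_X_of_ne hj, mul_zero]
  · intro h
    exact absurd (Finset.mem_univ i) h

theorem pderiv_rho (i : Fin n) : pderiv i (rho (n := n)) = 2 * X i := by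
  unfold rho
  rw [map_sum, Finset.sum_eq_single i]
  · rw [pderiv_mul, pderiv_X_self]
    ring
  · intro j _ hj
    rw [pderiv_mul, pderiv_X_of_ne hj]
    ring
  · intro h
    exact absurd (Finset.mem_univ i) h

theorem dir_mul (y : Fin n → ℝ) (p q : MvPolynomial (Fin n) ℝ) :
    dir y (p * q) = dir y p * q + p * dir y q := by
  unfold dir
  rw [Finset.sum_mul, Finset.mul_sum, ← Finset.sum_add_distrib]
  apply Finset.sum_congr rfl
  intro i _
  rw [pderiv_mul]
  ring

theorem dir_lin (y z : Fin n → ℝ) : dir y (lin z) = C (∑ i, y i * z i) := by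
  unfold dir
  rw [map_sum]
  apply Finset.sum_congr rfl
  intro i _
  rw [pderiv_lin, map_mul]

theorem dir_rho (y : Fin n → ℝ) : dir y (rho (n := n)) = 2 * lin y := by
  unfold dir lin
  rw [Finset.mul_sum]
  apply Finset.sum_congr rfl
  intro i _
  rw [pderiv_rho]
  ring

theorem lap_lin_mul (y : Fin n → ℝ) (p : MvPolynomial (Fin n) ℝ) :
    lap (lin y * p) = lin y * lap p + 2 * dir y p := by
  unfold lap dir
  rw [Finset.mul_sum, Finset.mul_sum, ← Finset.sum_add_distrib]
  apply Finset.sum_congr rfl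
  intro i _
  rw [pderiv_mul, pderiv_lin, map_add, pderiv_C_mul, pderiv_mul, pderiv_lin]
  ring

theorem lap_rho_mul (p : MvPolynomial (Fin n) ℝ) :
    lap (rho * p) = rho * lap p + 4 * eul p + 2 * (n : MvPolynomial (Fin n) ℝ) * p := by
  have h1 : (2 * (n : MvPolynomial (Fin n) ℝ) * p) = ∑ _i : Fin n, 2 * p := by
    rw [Finset.sum_const, Finset.card_univ, Fintype.card_fin, nsmul_eq_mul]
    ring
  rw [h1]
  unfold lap eul
  rw [Finset.mul_sum, Finset.mul_sum, ← Finset.sum_add_distrib, ← Finset.sum_add_distrib]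
  apply Finset.sum_congr rfl
  intro i _
  have h2 : pderiv i (2 * X i * p) = 2 * p + 2 * X i * pderiv i p := by
    have h3 : (2 * X i * p : MvPolynomial (Fin n) ℝ) = C 2 * (X i * p) := by
      rw [show (C 2 : MvPolynomial (Fin n) ℝ) = 2 from map_ofNat C 2]
      ring
    rw [h3, pderiv_C_mul, pderiv_mul, pderiv_X_self,
      show (C 2 : MvPolynomial (Fin n) ℝ) = 2 from map_ofNat C 2]
    ring
  rw [pderiv_mul, pderiv_rho, map_add, h2, pderiv_mul, pderiv_rho]
  ring

theorem lin_hom (y : Fin n → ℝ) : (lin y).IsHomogeneous 1 := by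
  unfold lin
  apply IsHomogeneous.sum
  intro i _
  have := (isHomogeneous_C (Fin n) (y i)).mul (isHomogeneous_X ℝ i)
  rwa [zero_add] at this

theorem rho_hom : (rho (n := n)).IsHomogeneous 2 := by
  unfold rho
  apply IsHomogeneous.sum
  intro i _
  exact (isHomogeneous_X ℝ i).mul (isHomogeneous_X ℝ i)

theorem dir_hom (y : Fin n → ℝ) {k : ℕ} {q : MvPolynomial (Fin n) ℝ}
    (hq : q.IsHomogeneous (k + 1)) : (dir y q).IsHomogeneous k := by
  unfold dir
  apply IsHomogeneous.sum
  intro i _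
  have h1 : (pderiv i q).IsHomogeneous k := by
    have := hq.pderiv (i := i)
    rwa [Nat.add_sub_cancel] at this
  have := (isHomogeneous_C (Fin n) (y i)).mul h1
  rwa [zero_add] at this

/-- Reproducing property. -/
theorem fis_lin_pow (y : Fin n → ℝ) (k : ℕ) : ∀ q : MvPolynomial (Fin n) ℝ,
    q.IsHomogeneous k → fis (lin y ^ k) q = (k.factorial : ℝ) * eval y q := by
  induction k with
  | zero =>
    intro q hq
    rw [← totalDegree_zero_iff_isHomogeneous, totalDegree_eq_zero_iff_eq_C] at hq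
    rw [pow_zero, fis_one, Nat.factorial_zero, Nat.cast_one, one_mul]
    conv_rhs => rw [hq]
    rw [eval_C]
  | succ k ih =>
    intro q hq
    rw [pow_succ', fis_lin_mul, ih _ (dir_hom y hq)]
    have h1 : eval y (dir y q) = eval y (∑ i, X i * pderiv i q) := by
      unfold dir
      rw [map_sum, map_sum]
      apply Finset.sum_congr rfl
      intro i _
      rw [map_mul, map_mul, eval_C, eval_X]
    rw [h1, hq.sum_X_mul_pderiv, map_nsmul, nsmul_eq_mul, Nat.factorial_succ]
    push_cast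
    ring

/-- Zonal harmonic polynomials, normalized Gegenbauer recursion. -/
def zon (y : Fin n → ℝ) : ℕ → MvPolynomial (Fin n) ℝ
  | 0 => 1
  | 1 => lin y
  | (k + 2) => C (((k : ℝ) + n - 1)⁻¹) * ((2 * (k : MvPolynomial (Fin n) ℝ) + (n : MvPolynomial (Fin n) ℝ)) * lin y *
      zon y (k + 1) - ((k : MvPolynomial (Fin n) ℝ) + 1) * C (∑ i, y i * y i) * rho * zon y k)

/-- The homogenized normalized Gegenbauer polynomials in dimension `n`. -/
def gk (n : ℕ) (s N : ℝ) : ℕ → ℝ
  | 0 => 1
  | 1 => s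
  | (k + 2) => ((k : ℝ) + n - 1)⁻¹ * ((2 * (k : ℝ) + n) * s * gk n s N (k + 1) -
      ((k : ℝ) + 1) * N * gk n s N k)

theorem zon_rec (hn : 2 ≤ n) (y : Fin n → ℝ) (k : ℕ) :
    ((k : MvPolynomial (Fin n) ℝ) + (n : MvPolynomial (Fin n) ℝ) - 1) * zon y (k + 2) =
      (2 * (k : MvPolynomial (Fin n) ℝ) + (n : MvPolynomial (Fin n) ℝ)) * lin y *
      zon y (k + 1) - ((k : MvPolynomial (Fin n) ℝ) + 1) * C (∑ i, y i * y i) * rho * zon y k := by
  have hnR : (2 : ℝ) ≤ n := by exact_mod_cast hn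
  have hk : (0 : ℝ) ≤ k := Nat.cast_nonneg k
  have h1 : ((k : MvPolynomial (Fin n) ℝ) + (n : MvPolynomial (Fin n) ℝ) - 1) * C (((k : ℝ) + n - 1)⁻¹) = 1 := by
    have h2 : ((k : MvPolynomial (Fin n) ℝ) + (n : MvPolynomial (Fin n) ℝ) - 1) = C ((k : ℝ) + n - 1) := by
      rw [map_sub, map_add, map_natCast, map_natCast, map_one]
    rw [h2, ← map_mul, mul_inv_cancel₀ (by linarith), map_one]
  rw [zon]
  rw [← mul_assoc, h1, one_mul]

theorem zon_rec' (hn : 2 ≤ n) (y : Fin n → ℝ) (k : ℕ) :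
    ((k : MvPolynomial (Fin n) ℝ) + (n : MvPolynomial (Fin n) ℝ) - 2) * zon y (k + 1) =
      (2 * (k : MvPolynomial (Fin n) ℝ) + (n : MvPolynomial (Fin n) ℝ) - 2) * lin y * zon y k -
      (k : MvPolynomial (Fin n) ℝ) * C (∑ i, y i * y i) * rho * zon y (k - 1) := by
  cases k with
  | zero =>
    simp [zon]
  | succ k =>
    have h1 := zon_rec hn y k
    rw [Nat.add_sub_cancel]
    push_cast
    linear_combination h1

theorem zon_hom (y : Fin n → ℝ) (k : ℕ) : (zon y k).IsHomogeneous k ∧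
    (zon y (k + 1)).IsHomogeneous (k + 1) := by
  induction k with
  | zero => exact ⟨isHomogeneous_one _ _, lin_hom y⟩
  | succ k ih =>
    refine ⟨ih.2, ?_⟩
    have h1 : ((2 * (k : MvPolynomial (Fin n) ℝ) + (n : MvPolynomial (Fin n) ℝ)) * lin y *
        zon y (k + 1)).IsHomogeneous (k + 1 + 1) := by
      have h2 : (2 * (k : MvPolynomial (Fin n) ℝ) + (n : MvPolynomial (Fin n) ℝ)) =
          C (2 * (k : ℝ) + n) := by
        rw [map_add, map_mul, map_natCast, map_natCast, map_ofNat]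
      rw [h2, mul_assoc]
      have h3 := (isHomogeneous_C (Fin n) (2 * (k : ℝ) + n)).mul ((lin_hom y).mul ih.2)
      have h4 : 0 + (1 + (k + 1)) = k + 1 + 1 := by ring
      rwa [h4] at h3
    have h5 : (((k : MvPolynomial (Fin n) ℝ) + 1) * C (∑ i, y i * y i) * rho *
        zon y k).IsHomogeneous (k + 1 + 1) := by
      have h2 : ((k : MvPolynomial (Fin n) ℝ) + 1) * C (∑ i, y i * y i) =
          C (((k : ℝ) + 1) * ∑ i, y i * y i) := by
        rw [map_mul, map_add, map_natCast, map_one]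
      rw [h2, mul_assoc]
      have h3 := (isHomogeneous_C (Fin n) (((k : ℝ) + 1) * ∑ i, y i * y i)).mul
        ((rho_hom (n := n)).mul ih.1)
      have h4 : 0 + (2 + k) = k + 1 + 1 := by ring
      rwa [h4] at h3
    have h6 : zon y (k + 1 + 1) = C (((k : ℝ) + n - 1)⁻¹) *
        ((2 * (k : MvPolynomial (Fin n) ℝ) + (n : MvPolynomial (Fin n) ℝ)) * lin y *
        zon y (k + 1) - ((k : MvPolynomial (Fin n) ℝ) + 1) * C (∑ i, y i * y i) * rho *
        zon y k) := by
      rw [zon]
    rw [h6]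
    have h7 := (isHomogeneous_C (Fin n) (((k : ℝ) + n - 1)⁻¹)).mul (h1.sub h5)
    rwa [zero_add] at h7

theorem zon_dir (hn : 2 ≤ n) (y : Fin n → ℝ) (k : ℕ) :
    dir y (zon y k) = (k : MvPolynomial (Fin n) ℝ) * C (∑ i, y i * y i) * zon y (k - 1) ∧
    dir y (zon y (k + 1)) = ((k : MvPolynomial (Fin n) ℝ) + 1) * C (∑ i, y i * y i) *
      zon y k := by
  have hnR : (2 : ℝ) ≤ n := by exact_mod_cast hn
  induction k with
  | zero =>
    constructor
    · simp [zon, dir]
    · simp [zon, dir_lin]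
  | succ k ih =>
    refine ⟨?_, ?_⟩
    · rw [Nat.add_sub_cancel, ih.2]
      push_cast
      ring
    · have h1 := congrArg (dir y) (zon_rec hn y k)
      have hc : ∀ (c : ℝ) (p : MvPolynomial (Fin n) ℝ), dir y (C c * p) = C c * dir y p := by
        intro c p
        unfold dir
        rw [Finset.mul_sum]
        apply Finset.sum_congr rfl
        intro i _
        rw [pderiv_C_mul]
        ring
      have hs : ∀ (p q : MvPolynomial (Fin n) ℝ), dir y (p - q) = dir y p - dir y q := by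
        intro p q
        unfold dir
        rw [← Finset.sum_sub_distrib]
        apply Finset.sum_congr rfl
        intro i _
        rw [map_sub]
        ring
      have e1 : ((k : MvPolynomial (Fin n) ℝ) + (n : MvPolynomial (Fin n) ℝ) - 1) =
          C ((k : ℝ) + n - 1) := by simp
      have e2 : (2 * (k : MvPolynomial (Fin n) ℝ) + (n : MvPolynomial (Fin n) ℝ)) =
          C (2 * (k : ℝ) + n) := by
        rw [map_add, map_mul, map_natCast, map_natCast, map_ofNat]
      have e3 : ((k : MvPolynomial (Fin n) ℝ) + 1) * C (∑ i, y i * y i) =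
          C (((k : ℝ) + 1) * ∑ i, y i * y i) := by
        rw [map_mul, map_add, map_natCast, map_one]
      rw [e1, e2, e3, mul_assoc, mul_assoc, hs, hc, hc, hc, dir_mul, dir_mul, dir_lin, dir_rho,
        ← e1, ← e2, ← e3, ih.1, ih.2] at h1
      have h2 := zon_rec' hn y k
      have h3 : ((k : MvPolynomial (Fin n) ℝ) + (n : MvPolynomial (Fin n) ℝ) - 1) ≠ 0 := by
        rw [e1]
        intro h
        rw [C_eq_zero] at h
        have hk : (0 : ℝ) ≤ k := Nat.cast_nonneg k
        linarith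
      apply mul_left_cancel₀ h3
      push_cast
      linear_combination h1 - ((k : MvPolynomial (Fin n) ℝ) + 1) * C (∑ i, y i * y i) * h2

theorem zon_lap (hn : 2 ≤ n) (y : Fin n → ℝ) (k : ℕ) :
    lap (zon y k) = 0 ∧ lap (zon y (k + 1)) = 0 := by
  have hnR : (2 : ℝ) ≤ n := by exact_mod_cast hn
  induction k with
  | zero =>
    constructor
    · simp [zon, lap]
    · unfold lap
      simp only [zon, pderiv_lin, pderiv_C, Finset.sum_const_zero]
  | succ k ih =>
    refine ⟨ih.2, ?_⟩
    have h1 := congrArg lap (zon_rec hn y k)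
    have hc : ∀ (c : ℝ) (p : MvPolynomial (Fin n) ℝ), lap (C c * p) = C c * lap p := by
      intro c p
      unfold lap
      rw [Finset.mul_sum]
      apply Finset.sum_congr rfl
      intro i _
      rw [pderiv_C_mul, pderiv_C_mul]
    have hs : ∀ (p q : MvPolynomial (Fin n) ℝ), lap (p - q) = lap p - lap q := by
      intro p q
      unfold lap
      rw [← Finset.sum_sub_distrib]
      apply Finset.sum_congr rfl
      intro i _
      rw [map_sub, map_sub]
    have e1 : ((k : MvPolynomial (Fin n) ℝ) + (n : MvPolynomial (Fin n) ℝ) - 1) =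
        C ((k : ℝ) + n - 1) := by simp
    have e2 : (2 * (k : MvPolynomial (Fin n) ℝ) + (n : MvPolynomial (Fin n) ℝ)) =
        C (2 * (k : ℝ) + n) := by
      rw [map_add, map_mul, map_natCast, map_natCast, map_ofNat]
    have e3 : ((k : MvPolynomial (Fin n) ℝ) + 1) * C (∑ i, y i * y i) =
        C (((k : ℝ) + 1) * ∑ i, y i * y i) := by
      rw [map_mul, map_add, map_natCast, map_one]
    have hE : eul (zon y k) = (k : MvPolynomial (Fin n) ℝ) * zon y k := by
      unfold eul
      rw [(zon_hom y k).1.sum_X_mul_pderiv, nsmul_eq_mul]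
    rw [e1, e2, e3, mul_assoc, mul_assoc, hs, hc, hc, hc, lap_lin_mul, lap_rho_mul,
      ← e1, ← e2, ← e3, ih.1, ih.2, (zon_dir hn y k).2, hE] at h1
    have h3 : ((k : MvPolynomial (Fin n) ℝ) + (n : MvPolynomial (Fin n) ℝ) - 1) ≠ 0 := by
      rw [e1]
      intro h
      rw [C_eq_zero] at h
      have hk : (0 : ℝ) ≤ k := Nat.cast_nonneg k
      linarith
    apply mul_left_cancel₀ h3
    linear_combination h1

/-- Leading coefficients of the normalized Gegenbauer polynomials. -/
def lc (n : ℕ) : ℕ → ℝ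
  | 0 => 1
  | 1 => 1
  | (k + 2) => ((k : ℝ) + n - 1)⁻¹ * (2 * (k : ℝ) + n) * lc n (k + 1)

theorem lc_pos (hn : 2 ≤ n) (k : ℕ) : 0 < lc n k ∧ 0 < lc n (k + 1) := by
  have hnR : (2 : ℝ) ≤ n := by exact_mod_cast hn
  induction k with
  | zero => exact ⟨by simp [lc], by simp [lc]⟩
  | succ k ih =>
    refine ⟨ih.2, ?_⟩
    have hk : (0 : ℝ) ≤ k := Nat.cast_nonneg k
    have h1 : 0 < (k : ℝ) + n - 1 := by linarith
    have h2 : 0 < 2 * (k : ℝ) + n := by linarith
    show 0 < lc n (k + 1 + 1)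
    rw [lc]
    exact mul_pos (mul_pos (inv_pos.mpr h1) h2) ih.2

theorem zon_lead (y : Fin n → ℝ) (k : ℕ) :
    (∃ W, zon y k = C (lc n k) * lin y ^ k + rho * W) ∧
    (∃ W, zon y (k + 1) = C (lc n (k + 1)) * lin y ^ (k + 1) + rho * W) := by
  induction k with
  | zero => exact ⟨⟨0, by simp [zon, lc]⟩, ⟨0, by simp [zon, lc]⟩⟩
  | succ k ih =>
    refine ⟨ih.2, ?_⟩
    obtain ⟨W, hW⟩ := ih.2
    refine ⟨C (((k : ℝ) + n - 1)⁻¹) * ((2 * (k : MvPolynomial (Fin n) ℝ) +
      (n : MvPolynomial (Fin n) ℝ)) * lin y * W - ((k : MvPolynomial (Fin n) ℝ) + 1) *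
      C (∑ i, y i * y i) * zon y k), ?_⟩
    have e2 : (2 * (k : MvPolynomial (Fin n) ℝ) + (n : MvPolynomial (Fin n) ℝ)) =
        C (2 * (k : ℝ) + n) := by
      rw [map_add, map_mul, map_natCast, map_natCast, map_ofNat]
    have e4 : C (lc n (k + 1 + 1)) = C (((k : ℝ) + n - 1)⁻¹) *
        (2 * (k : MvPolynomial (Fin n) ℝ) + (n : MvPolynomial (Fin n) ℝ)) *
        C (lc n (k + 1)) := by
      rw [e2, ← map_mul, ← map_mul, lc]
    rw [e4, zon, hW]
    ring

theorem eval_lin (x y : Fin n → ℝ) : eval x (lin y) = ∑ i, x i * y i := by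
  unfold lin
  rw [map_sum]
  apply Finset.sum_congr rfl
  intro i _
  rw [map_mul, eval_C, eval_X, mul_comm]

theorem eval_rho (x : Fin n → ℝ) : eval x (rho (n := n)) = ∑ i, x i * x i := by
  unfold rho
  rw [map_sum]
  apply Finset.sum_congr rfl
  intro i _
  rw [map_mul, eval_X]

theorem eval_zon (x y : Fin n → ℝ) (k : ℕ) :
    eval x (zon y k) = gk n (∑ i, x i * y i) ((∑ i, x i * x i) * (∑ i, y i * y i)) k ∧
    eval x (zon y (k + 1)) =
      gk n (∑ i, x i * y i) ((∑ i, x i * x i) * (∑ i, y i * y i)) (k + 1) := by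
  induction k with
  | zero => exact ⟨by simp [zon, gk], by simp [zon, gk, eval_lin]⟩
  | succ k ih =>
    refine ⟨ih.2, ?_⟩
    rw [zon, gk, map_mul, eval_C, map_sub, map_mul, map_mul, map_mul, map_mul, map_mul, ih.1, ih.2,
      eval_lin, eval_rho, eval_C, map_add, map_add, map_mul, map_natCast, map_natCast, map_one,
      map_ofNat]
    ring

/-- The reproducing identity. -/
theorem fis_zon (hn : 2 ≤ n) (x y : Fin n → ℝ) (k : ℕ) :
    fis (zon x k) (zon y k) = lc n k * (k.factorial : ℝ) *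
      gk n (∑ i, x i * y i) ((∑ i, x i * x i) * (∑ i, y i * y i)) k := by
  obtain ⟨W, hW⟩ := (zon_lead x k).1
  rw [hW, map_add, LinearMap.add_apply, fis_rho_mul, (zon_lap hn y k).1, map_zero, add_zero,
    fis_C_mul, fis_lin_pow x k _ (zon_hom y k).1, (eval_zon x y k).1]
  ring

/-- Positive definiteness of the Gegenbauer kernels, for vectors of arbitrary length. -/
theorem gk_nonneg (hn : 2 ≤ n) {ι : Type} (s : Finset ι) (v : ι → Fin n → ℝ) (w : ι → ℝ)
    (k : ℕ) :
    0 ≤ ∑ a ∈ s, ∑ b ∈ s, w a * w b * gk n (∑ i, v a i * v b i)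
      ((∑ i, v a i * v a i) * (∑ i, v b i * v b i)) k := by
  have h1 := fis_self_nonneg (∑ a ∈ s, C (w a) * zon (v a) k)
  have h2 : fis (∑ a ∈ s, C (w a) * zon (v a) k) (∑ a ∈ s, C (w a) * zon (v a) k) =
      lc n k * (k.factorial : ℝ) * ∑ a ∈ s, ∑ b ∈ s, w a * w b * gk n (∑ i, v a i * v b i)
      ((∑ i, v a i * v a i) * (∑ i, v b i * v b i)) k := by
    have h4 : ∀ a b : ι, fis (C (w a) * zon (v a) k) (C (w b) * zon (v b) k) =
        lc n k * (k.factorial : ℝ) * (w a * w b * gk n (∑ i, v a i * v b i)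
        ((∑ i, v a i * v a i) * (∑ i, v b i * v b i)) k) := by
      intro a b
      rw [fis_C_mul, C_mul', map_smul, smul_eq_mul, fis_zon hn]
      ring
    rw [map_sum]
    have h5 : ∀ b : ι, fis (∑ a ∈ s, C (w a) * zon (v a) k) (C (w b) * zon (v b) k) =
        ∑ a ∈ s, lc n k * (k.factorial : ℝ) * (w a * w b * gk n (∑ i, v a i * v b i)
        ((∑ i, v a i * v a i) * (∑ i, v b i * v b i)) k) := by
      intro b
      rw [map_sum, LinearMap.sum_apply]
      exact Finset.sum_congr rfl (fun a _ => h4 a b)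
    rw [Finset.sum_congr rfl (fun b _ => h5 b), Finset.sum_comm, Finset.mul_sum]
    apply Finset.sum_congr rfl
    intro a _
    rw [Finset.mul_sum]
  rw [h2] at h1
  have h3 : 0 < lc n k * (k.factorial : ℝ) :=
    mul_pos (lc_pos hn k).1 (by exact_mod_cast Nat.factorial_pos k)
  exact nonneg_of_mul_nonneg_right h1 h3

end KissLP
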