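import Pool.Agent.Lib.KissLP.Dim5

/-!
# Dimension five: configurations with twelve antipodal pairs
-/

set_option autoImplicit false

open Module

noncomputable section

namespace KissLP

variable {E : Type} [NormedAddCommGroup E] [InnerProductSpace ℝ E]

/-- The inequality with a pole in the hyperplane orthogonal to `u`, for families. -/
theorem hyper_pole [FiniteDimensional ℝ E] {n : ℕ} (hn : 2 ≤ n) (hE : finrank ℝ E = n + 1)
    {u : E} (hu : u ≠ 0) (s : Finset E) (v : E → E) (w : E → ℝ) (hv : ∀ a ∈ s, ‖v a‖ = 1)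
    (ho : ∀ a ∈ s, inner ℝ (v a) u = 0) (e : E) (he : ‖e‖ = 1) (heo : inner ℝ e u = 0) (k : ℕ) :
    (∑ a ∈ s, w a * gk n (inner ℝ (v a) e) 1 k) ^ 2 ≤
      ∑ a ∈ s, ∑ b ∈ s, w a * w b * gk n (inner ℝ (v a) (v b)) 1 k := by
  classical
  have : Fact (finrank ℝ E = n + 1) := ⟨hE⟩
  have hF : finrank ℝ (ℝ ∙ u)ᗮ = n := Submodule.finrank_orthogonal_span_singleton hu
  have hmem : ∀ a ∈ s, v a ∈ (ℝ ∙ u)ᗮ := by
    intro a ha
    rw [Submodule.mem_orthogonal_singleton_iff_inner_left]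
    exact ho a ha
  have hemem : e ∈ (ℝ ∙ u)ᗮ := by
    rw [Submodule.mem_orthogonal_singleton_iff_inner_left]
    exact heo
  let v' : E → (ℝ ∙ u)ᗮ := fun a => if h : v a ∈ (ℝ ∙ u)ᗮ then ⟨v a, h⟩ else 0
  have hva : ∀ a ∈ s, ((v' a : (ℝ ∙ u)ᗮ) : E) = v a := by
    intro a ha
    simp only [v']
    rw [dif_pos (hmem a ha)]
  have h1 := gk_pole hn hF s v' w (fun a ha => by
    show ‖((v' a : (ℝ ∙ u)ᗮ) : E)‖ = 1
    rw [hva a ha]
    exact hv a ha) ⟨e, hemem⟩ (by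
    show ‖e‖ = 1
    exact he) k
  have h2 : ∑ a ∈ s, w a * gk n (inner ℝ (v' a) (⟨e, hemem⟩ : (ℝ ∙ u)ᗮ)) 1 k =
      ∑ a ∈ s, w a * gk n (inner ℝ (v a) e) 1 k := by
    apply Finset.sum_congr rfl
    intro a ha
    rw [Submodule.coe_inner, hva a ha]
  have h3 : ∑ a ∈ s, ∑ b ∈ s, w a * w b * gk n (inner ℝ (v' a) (v' b)) 1 k =
      ∑ a ∈ s, ∑ b ∈ s, w a * w b * gk n (inner ℝ (v a) (v b)) 1 k := by
    apply Finset.sum_congr rfl
    intro a ha
    apply Finset.sum_congr rfl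
    intro b hb
    rw [Submodule.coe_inner, hva a ha, hva b hb]
  rwa [h2, h3] at h1

theorem g4_2 (t : ℝ) : gk 4 t 1 2 = 4 / 3 * t ^ 2 - 1 / 3 := by
  simp only [gk]
  norm_num
  ring

theorem g4_4 (t : ℝ) : gk 4 t 1 4 = 16 / 5 * t ^ 4 - 12 / 5 * t ^ 2 + 1 / 5 := by
  simp only [gk]
  norm_num
  ring

/-- A tight antipodal part is a spherical design. -/
theorem tight_design [FiniteDimensional ℝ E] (hE : finrank ℝ E = 5) {K : Finset E}
    (hu : ∀ x ∈ K, ‖x‖ = 1)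
    (hs : ∀ x ∈ K, ∀ y ∈ K, x ≠ y → inner ℝ x y ≤ (1 / 2 : ℝ)) {u : E} (hu0 : u ≠ 0)
    (ho : ∀ x ∈ K, 0 ≤ (inner ℝ x u : ℝ)) (h24 : (anti K).card = 24) {e : E} (he : ‖e‖ = 1)
    (heo : (inner ℝ e u : ℝ) = 0) :
    ∑ z ∈ anti K, (inner ℝ z e : ℝ) ^ 2 = 6 ∧ ∑ z ∈ anti K, (inner ℝ z e : ℝ) ^ 4 = 3 := by
  classical
  set T := anti K with hT
  have hTK : ∀ x ∈ T, x ∈ K := fun x hx => (mem_anti.mp hx).1
  have hTo : ∀ x ∈ T, (inner ℝ x u : ℝ) = 0 := anti_orth ho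
  have hw : ∀ x ∈ T, wt T x = 1 / 2 := by
    intro x hx
    have h1 : -x ∈ T := by
      rw [hT, mem_anti, neg_neg] at *
      exact ⟨hx.2, hx.1⟩
    unfold wt
    rw [if_pos h1]
  have h5 := upper_even T (fun x hx => hu x (hTK x hx))
    (fun x hx y hy => hs x (hTK x hx) y (hTK y hy)) (fun t => t ^ 2 * (t ^ 2 - 1 / 4)) (3 / 4)
    (by norm_num) (by norm_num) (by norm_num)
    (fun t h1 h2 => F4_le h1 (by linarith)) (fun x _ y _ h => F4_nonpos h)
  have hW : ∑ x ∈ T, wt T x = 12 := by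
    rw [Finset.sum_congr rfl hw, Finset.sum_const, nsmul_eq_mul, h24]
    norm_num
  rw [hT, conf_anti hu hs, ← hT, hW, Finset.card_empty, Nat.cast_zero, add_zero] at h5
  have hpole := fun k => hyper_pole (n := 4) (by norm_num) hE hu0 T id (wt T)
    (fun x hx => hu x (hTK x hx)) hTo e he heo k
  simp only [id] at hpole
  set S : ℕ → ℝ := fun k => ∑ x ∈ T, ∑ y ∈ T, wt T x * wt T y * gk 4 (inner ℝ x y) 1 k with hS
  have hS0 : S 0 = 12 ^ 2 := by
    simp only [hS, gk, mul_one]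
    rw [← hW, sq, Finset.sum_mul_sum]
  have hSn : ∀ k, 0 ≤ S k := fun k => (sq_nonneg _).trans (hpole k)
  have hexp : ∑ x ∈ T, ∑ y ∈ T, wt T x * wt T y *
      ((inner ℝ x y : ℝ) ^ 2 * ((inner ℝ x y : ℝ) ^ 2 - 1 / 4)) =
      1 / 16 * S 0 + 3 / 8 * S 2 + 5 / 16 * S 4 := by
    simp only [hS, Finset.mul_sum]
    rw [← Finset.sum_add_distrib, ← Finset.sum_add_distrib]
    apply Finset.sum_congr rfl
    intro x _
    rw [← Finset.sum_add_distrib, ← Finset.sum_add_distrib]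
    apply Finset.sum_congr rfl
    intro y _
    rw [g4_2, g4_4]
    simp only [gk]
    ring
  rw [hexp, hS0] at h5
  have hS2 : S 2 = 0 := by
    have := hSn 2
    have := hSn 4
    linarith
  have hS4 : S 4 = 0 := by
    have := hSn 2
    have := hSn 4
    linarith
  have hp2 : ∑ a ∈ T, wt T a * gk 4 (inner ℝ a e) 1 2 = 0 := by
    have h6 := hpole 2
    have h7 : S 2 = ∑ x ∈ T, ∑ y ∈ T, wt T x * wt T y * gk 4 (inner ℝ x y) 1 2 := rfl
    rw [← h7, hS2] at h6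
    exact pow_eq_zero_iff (two_ne_zero) |>.mp (le_antisymm h6 (sq_nonneg _))
  have hp4 : ∑ a ∈ T, wt T a * gk 4 (inner ℝ a e) 1 4 = 0 := by
    have h6 := hpole 4
    have h7 : S 4 = ∑ x ∈ T, ∑ y ∈ T, wt T x * wt T y * gk 4 (inner ℝ x y) 1 4 := rfl
    rw [← h7, hS4] at h6
    exact pow_eq_zero_iff (two_ne_zero) |>.mp (le_antisymm h6 (sq_nonneg _))
  have e2 : ∑ a ∈ T, wt T a * gk 4 (inner ℝ a e) 1 2 =
      2 / 3 * ∑ z ∈ T, (inner ℝ z e : ℝ) ^ 2 - 4 := by
    have h7 : ∀ a ∈ T, wt T a * gk 4 (inner ℝ a e) 1 2 =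
        2 / 3 * (inner ℝ a e : ℝ) ^ 2 - 1 / 6 := by
      intro a ha
      rw [hw a ha, g4_2]
      ring
    rw [Finset.sum_congr rfl h7, Finset.sum_sub_distrib, ← Finset.mul_sum, Finset.sum_const,
      nsmul_eq_mul, h24]
    norm_num
  have e4 : ∑ a ∈ T, wt T a * gk 4 (inner ℝ a e) 1 4 =
      8 / 5 * ∑ z ∈ T, (inner ℝ z e : ℝ) ^ 4 - 6 / 5 * ∑ z ∈ T, (inner ℝ z e : ℝ) ^ 2 +
      12 / 5 := by
    have h7 : ∀ a ∈ T, wt T a * gk 4 (inner ℝ a e) 1 4 =
        8 / 5 * (inner ℝ a e : ℝ) ^ 4 - 6 / 5 * (inner ℝ a e : ℝ) ^ 2 + 1 / 10 := by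
      intro a ha
      rw [hw a ha, g4_4]
      ring
    rw [Finset.sum_congr rfl h7, Finset.sum_add_distrib, Finset.sum_sub_distrib,
      ← Finset.mul_sum, ← Finset.mul_sum, Finset.sum_const, nsmul_eq_mul, h24]
    norm_num
  rw [hp2] at e2
  rw [hp4] at e4
  constructor <;> linarith

/-- Unit vectors orthogonal to `u` with pairwise nonpositive inner products. -/
theorem obtuse_le [FiniteDimensional ℝ E] (hE : finrank ℝ E = 5)
    {u : E} (hu0 : u ≠ 0) (s : Finset E) (v : E → E) (hv : ∀ a ∈ s, ‖v a‖ = 1)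
    (ho : ∀ a ∈ s, inner ℝ (v a) u = 0)
    (hp : ∀ a ∈ s, ∀ b ∈ s, a ≠ b → inner ℝ (v a) (v b) ≤ (0 : ℝ)) : s.card ≤ 8 := by
  classical
  rcases s.eq_empty_or_nonempty with h | ⟨a₀, ha₀⟩
  · simp [h]
  have hpole := fun k => hyper_pole (n := 4) (by norm_num) hE hu0 s v (fun _ => 1) hv ho
    (v a₀) (hv a₀ ha₀) (ho a₀ ha₀) k
  have h1 := (sq_nonneg _).trans (hpole 1)
  have h2 := (sq_nonneg _).trans (hpole 2)
  simp only [one_mul] at h1 h2
  have h3 : ∑ a ∈ s, ∑ b ∈ s, ((inner ℝ (v a) (v b) : ℝ) ^ 2 + (inner ℝ (v a) (v b) : ℝ)) =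
      1 / 4 * (s.card : ℝ) ^ 2 + ∑ a ∈ s, ∑ b ∈ s, gk 4 (inner ℝ (v a) (v b)) 1 1 +
      3 / 4 * ∑ a ∈ s, ∑ b ∈ s, gk 4 (inner ℝ (v a) (v b)) 1 2 := by
    have h4 : (1 / 4 * (s.card : ℝ) ^ 2) = ∑ _a ∈ s, ∑ _b ∈ s, (1 / 4 : ℝ) := by
      simp only [Finset.sum_const, nsmul_eq_mul]
      ring
    rw [h4, Finset.mul_sum, ← Finset.sum_add_distrib, ← Finset.sum_add_distrib]
    apply Finset.sum_congr rfl
    intro a _
    rw [Finset.mul_sum, ← Finset.sum_add_distrib, ← Finset.sum_add_distrib]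
    apply Finset.sum_congr rfl
    intro b _
    rw [g4_2]
    simp only [gk]
    ring
  have h5 : ∑ a ∈ s, ∑ b ∈ s, ((inner ℝ (v a) (v b) : ℝ) ^ 2 + (inner ℝ (v a) (v b) : ℝ)) ≤
      ∑ a ∈ s, ∑ b ∈ s, (if b = a then (2 : ℝ) else 0) := by
    apply Finset.sum_le_sum
    intro a ha
    apply Finset.sum_le_sum
    intro b hb
    by_cases hab : b = a
    · rw [if_pos hab, hab, real_inner_self_eq_norm_sq, hv a ha]
      norm_num
    · rw [if_neg hab]
      have h6 := hp a ha b hb (fun h => hab h.symm)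
      have h7 : -1 ≤ (inner ℝ (v a) (v b) : ℝ) := by
        have := abs_real_inner_le_norm (v a) (v b)
        rw [hv a ha, hv b hb, mul_one] at this
        exact (abs_le.mp this).1
      nlinarith
  have h6 : ∑ a ∈ s, ∑ b ∈ s, (if b = a then (2 : ℝ) else 0) = 2 * s.card := by
    have h7 : ∀ a ∈ s, ∑ b ∈ s, (if b = a then (2 : ℝ) else 0) = 2 := by
      intro a ha
      rw [Finset.sum_ite_eq', if_pos ha]
    rw [Finset.sum_congr rfl h7, Finset.sum_const, nsmul_eq_mul]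
    ring
  rw [h6, h3] at h5
  have h7 : (s.card : ℝ) ≤ 8 := by
    have h8 : (0 : ℝ) < s.card := by exact_mod_cast Finset.card_pos.mpr ⟨a₀, ha₀⟩
    by_contra h9
    push Not at h9
    nlinarith
  exact_mod_cast h7

/-- The points outside a tight antipodal part are high. -/
theorem tight_high [FiniteDimensional ℝ E] (hE : finrank ℝ E = 5) {K : Finset E}
    (hu : ∀ x ∈ K, ‖x‖ = 1)
    (hs : ∀ x ∈ K, ∀ y ∈ K, x ≠ y → inner ℝ x y ≤ (1 / 2 : ℝ)) {u : E} (hu1 : ‖u‖ = 1)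
    (ho : ∀ x ∈ K, 0 ≤ (inner ℝ x u : ℝ)) (h24 : (anti K).card = 24) {x : E} (hx : x ∈ K)
    (hxT : x ∉ anti K) : 1 / 2 ≤ (inner ℝ x u : ℝ) ^ 2 := by
  classical
  have hu0 : u ≠ 0 := by
    intro h
    rw [h, norm_zero] at hu1
    norm_num at hu1
  have huu : (inner ℝ u u : ℝ) = 1 := by
    rw [real_inner_self_eq_norm_sq, hu1]
    norm_num
  set h : ℝ := inner ℝ x u with hh
  set y : E := x - h • u with hy
  have hyu : (inner ℝ y u : ℝ) = 0 := by
    rw [hy, inner_sub_left, inner_smul_left, huu, ← hh]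
    simp
  have hny : ‖y‖ ^ 2 = 1 - h ^ 2 := by
    rw [hy, norm_sub_sq_real, inner_smul_right, norm_smul, hu x hx, hu1, ← hh, Real.norm_eq_abs,
      mul_one, sq_abs]
    ring
  by_contra hcon
  push Not at hcon
  have hypos : 0 < ‖y‖ := by
    by_contra h1
    have h2 : ‖y‖ = 0 := le_antisymm (not_lt.mp h1) (norm_nonneg _)
    rw [h2] at hny
    nlinarith
  set e : E := (‖y‖)⁻¹ • y with he
  have hen : ‖e‖ = 1 := by
    rw [he, norm_smul, norm_inv, norm_norm, inv_mul_cancel₀ hypos.ne']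
  have heu : (inner ℝ e u : ℝ) = 0 := by
    rw [he, inner_smul_left, hyu]
    simp
  obtain ⟨hd2, hd4⟩ := tight_design hE hu hs hu0 ho h24 hen heu
  have hz : ∀ z ∈ anti K, (inner ℝ z e : ℝ) ^ 2 * (4 * ‖y‖ ^ 2) ≤ 1 := by
    intro z hz
    have hzK := mem_anti.mp hz
    have h1 : (inner ℝ z e : ℝ) * ‖y‖ = inner ℝ z x := by
      have h2 : (inner ℝ z y : ℝ) = inner ℝ z x := by
        rw [hy, inner_sub_right, inner_smul_right, anti_orth ho z hz, mul_zero, sub_zero]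
      rw [he, inner_smul_right, h2]
      field_simp
    have h2 : |(inner ℝ z x : ℝ)| ≤ 1 / 2 := by
      rw [abs_le]
      constructor
      · have h3 : -z ≠ x := by
          intro h4
          apply hxT
          rw [← h4, mem_anti, neg_neg]
          exact ⟨hzK.2, hzK.1⟩
        have h4 := hs (-z) hzK.2 x hx h3
        rw [inner_neg_left] at h4
        linarith
      · have h3 : z ≠ x := by
          intro h4
          apply hxT
          rw [← h4]
          exact hz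
        exact hs z hzK.1 x hx h3
    have h5 : (inner ℝ z x : ℝ) ^ 2 ≤ 1 / 4 := by
      rw [abs_le] at h2
      nlinarith [h2.1, h2.2]
    calc (inner ℝ z e : ℝ) ^ 2 * (4 * ‖y‖ ^ 2) = 4 * ((inner ℝ z e : ℝ) * ‖y‖) ^ 2 := by ring
      _ = 4 * (inner ℝ z x : ℝ) ^ 2 := by rw [h1]
      _ ≤ 1 := by linarith
  have h1 : ∑ z ∈ anti K, (inner ℝ z e : ℝ) ^ 4 * (4 * ‖y‖ ^ 2) ≤
      ∑ z ∈ anti K, (inner ℝ z e : ℝ) ^ 2 := by
    apply Finset.sum_le_sum
    intro z hzz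
    have h2 := hz z hzz
    have h3 : 0 ≤ (inner ℝ z e : ℝ) ^ 2 := sq_nonneg _
    calc (inner ℝ z e : ℝ) ^ 4 * (4 * ‖y‖ ^ 2) =
          (inner ℝ z e : ℝ) ^ 2 * ((inner ℝ z e : ℝ) ^ 2 * (4 * ‖y‖ ^ 2)) := by ring
      _ ≤ (inner ℝ z e : ℝ) ^ 2 * 1 := mul_le_mul_of_nonneg_left h2 h3
      _ = (inner ℝ z e : ℝ) ^ 2 := mul_one _
  rw [← Finset.sum_mul, hd4, hd2] at h1
  nlinarith

/-- At most `32` points if there are twelve antipodal pairs. -/
theorem dim5_full [FiniteDimensional ℝ E] (hE : finrank ℝ E = 5) {K : Finset E}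
    (hu : ∀ x ∈ K, ‖x‖ = 1)
    (hs : ∀ x ∈ K, ∀ y ∈ K, x ≠ y → inner ℝ x y ≤ (1 / 2 : ℝ)) {u : E} (hu1 : ‖u‖ = 1)
    (ho : ∀ x ∈ K, 0 ≤ (inner ℝ x u : ℝ)) (h24 : (anti K).card = 24) : K.card ≤ 32 := by
  classical
  have hu0 : u ≠ 0 := by
    intro h
    rw [h, norm_zero] at hu1
    norm_num at hu1
  have huu : (inner ℝ u u : ℝ) = 1 := by
    rw [real_inner_self_eq_norm_sq, hu1]
    norm_num
  set R : Finset E := K \ anti K with hR
  have hsub : anti K ⊆ K := fun x hx => (mem_anti.mp hx).1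
  have hcard : K.card = 24 + R.card := by
    rw [hR, Finset.card_sdiff_of_subset hsub, h24]
    have := Finset.card_le_card hsub
    omega
  have hRm : ∀ x ∈ R, x ∈ K ∧ 1 / 2 ≤ (inner ℝ x u : ℝ) ^ 2 := by
    intro x hx
    rw [hR, Finset.mem_sdiff] at hx
    exact ⟨hx.1, tight_high hE hu hs hu1 ho h24 hx.1 hx.2⟩
  have hhalf : ∀ x ∈ R, 1 / 2 < (inner ℝ x u : ℝ) := by
    intro x hx
    have h1 := (hRm x hx).2
    have h2 := ho x (hRm x hx).1
    nlinarith
  let y : E → E := fun x => x - (inner ℝ x u : ℝ) • u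
  have hyu : ∀ x, (inner ℝ (y x) u : ℝ) = 0 := by
    intro x
    simp only [y]
    rw [inner_sub_left, inner_smul_left, huu]
    simp
  have hyy : ∀ a b, (inner ℝ (y a) (y b) : ℝ) = inner ℝ a b - inner ℝ a u * inner ℝ b u := by
    intro a b
    simp only [y]
    rw [inner_sub_left, inner_sub_right, inner_sub_right, inner_smul_left, inner_smul_left,
      inner_smul_right, inner_smul_right, huu, real_inner_comm b u]
    simp
    ring
  have hle : R.card ≤ 8 := by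
    by_cases hex : ∃ x ∈ R, y x = 0
    · obtain ⟨x, hx, hx0⟩ := hex
      have hone : ∀ x' ∈ R, x' = x := by
        intro x' hx'
        by_contra hne
        have h1 := hs x' (hRm x' hx').1 x (hRm x hx).1 hne
        have h2 := hyy x' x
        rw [hx0, inner_zero_right] at h2
        have h3 := hhalf x' hx'
        have h5 := hyy x x
        rw [hx0, inner_zero_right, real_inner_self_eq_norm_sq, hu x (hRm x hx).1] at h5
        have h6 := ho x (hRm x hx).1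
        have h7 : (inner ℝ x u : ℝ) = 1 := by nlinarith
        rw [h7] at h2
        linarith
      have : R.card ≤ 1 := Finset.card_le_one.mpr (fun a ha b hb => by
        rw [hone a ha, hone b hb])
      omega
    · push Not at hex
      have hpos : ∀ x ∈ R, 0 < ‖y x‖ := fun x hx => norm_pos_iff.mpr (hex x hx)
      refine obtuse_le hE hu0 R (fun x => (‖y x‖)⁻¹ • y x) ?_ ?_ ?_
      · intro x hx
        rw [norm_smul, norm_inv, norm_norm, inv_mul_cancel₀ (hpos x hx).ne']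
      · intro x _
        rw [inner_smul_left, hyu]
        simp
      · intro a ha b hb hab
        rw [inner_smul_left, inner_smul_right, hyy]
        have h1 := hs a (hRm a ha).1 b (hRm b hb).1 hab
        have h2 := (hRm a ha).2
        have h3 := (hRm b hb).2
        have h4 := hhalf a ha
        have h5 := hhalf b hb
        have h6 : 1 / 2 ≤ (inner ℝ a u : ℝ) * inner ℝ b u := by
          have h7 : 1 / 4 ≤ ((inner ℝ a u : ℝ) * inner ℝ b u) ^ 2 := by
            rw [mul_pow]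
            nlinarith
          by_contra h8
          push Not at h8
          have h9 : 0 < (inner ℝ a u : ℝ) * inner ℝ b u := by positivity
          nlinarith
        have h7 : (inner ℝ a b : ℝ) - inner ℝ a u * inner ℝ b u ≤ 0 := by linarith
        have h8 : 0 < (‖y a‖)⁻¹ := inv_pos.mpr (hpos a ha)
        have h9 : 0 < (‖y b‖)⁻¹ := inv_pos.mpr (hpos b hb)
        simp only [conj_trivial]
        exact mul_nonpos_of_nonneg_of_nonpos h8.le (mul_nonpos_of_nonneg_of_nonpos h9.le h7)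
  omega

end KissLP
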