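import Pool.Agent.Lib.KissLP.Dim24

/-!
# Linear programming with a pole in dimension 24
-/

set_option autoImplicit false

open Module

noncomputable section

namespace KissLP

/-- Coefficients of the Levenshtein polynomial. -/
def phL (k : ℕ) : ℝ :=
  match k with
  | 0 => 15 / 1490944
  | 1 => 45 / 186368
  | 2 => 3795 / 1949696
  | 3 => 10005 / 905216
  | 4 => 3983025 / 101384192
  | 5 => 56235 / 487424
  | 6 => 2040905 / 8716288
  | 7 => 270135 / 661504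
  | 8 => 16675 / 34816
  | 9 => 150075 / 330752
  | 10 => 310155 / 1323008
  | _ => 0

/-- Coefficients of the interpolation polynomial. -/
def aL (k : ℕ) : ℝ :=
  match k with
  | 0 => 1073 / 1456
  | 1 => 2011 / 1170
  | 2 => -(1725 / 1904)
  | 3 => -(198421 / 29835)
  | 4 => 1481775 / 49504
  | 5 => 5290 / 459
  | 6 => 248975 / 4256
  | 7 => -(986792 / 14535)
  | 8 => 6670 / 17
  | 9 => 538936 / 8721
  | 10 => -(310155 / 646)
  | _ => 0

/-- Coefficients of the kernel for the one-sided bound. -/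
def phD (k : ℕ) : ℝ :=
  match k with
  | 0 => 236804613071227 / 23101875000000000000
  | 1 => 16429095994852109 / 66738750000000000000
  | 2 => 25195337736683536571 / 12567420000000000000000
  | 3 => 185185312072065012431 / 16337646000000000000000
  | 4 => 90530048931507133 / 2234208000000000000
  | 5 => 1749734144887561 / 14785200000000000
  | 6 => 390422795805787 / 1619712000000000
  | 7 => 55608344210829 / 133176320000000
  | 8 => 42036540038803 / 85793587200000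
  | 9 => 112711661 / 244756480
  | 10 => 310155 / 1323008
  | _ => 0

/-- Coefficients of the test polynomial for the one-sided bound. -/
def aD (k : ℕ) : ℝ :=
  match k with
  | 0 => 44477508400553 / 54600000000000
  | 1 => 6211012808909 / 4550000000000
  | 2 => -(212698560177793 / 71400000000000)
  | 3 => 355933355371 / 1657500000000
  | 4 => 24918643711791 / 3094000000000
  | 5 => -(228135533957 / 44625000000)
  | 6 => -(15755260462741 / 1330000000000)
  | 7 => 234539634177 / 32300000000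
  | 8 => 10742768033 / 1088000000
  | 9 => -(6405201 / 8268800)
  | 10 => -(2047023 / 1323008)
  | _ => 0


theorem phL_nonneg (k : ℕ) : 0 ≤ phL k := by
  unfold phL
  split <;> norm_num

theorem phD_nonneg (k : ℕ) : 0 ≤ phD k := by
  unfold phD
  split <;> norm_num

/-- The Levenshtein polynomial. -/
def FL (t : ℝ) : ℝ :=
  (t + 1) * (t + 1 / 2) ^ 2 * (t + 1 / 4) ^ 2 * t ^ 2 * (t - 1 / 4) ^ 2 * (t - 1 / 2)

/-- The kernel for the one-sided bound. -/
def FD (t : ℝ) : ℝ :=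
  (t + 1) * (t + 63 / 125) ^ 2 * (t + 19 / 75) ^ 2 * (t + 1 / 400) ^ 2 * (t - 46 / 185) ^ 2 *
    (t - 1 / 2)

/-- The interpolation polynomial. -/
def PL (h : ℝ) : ℝ :=
  1 + h * (h - 1 / 4) ^ 2 * (h - 1 / 2) ^ 2 * (1 - h) *
    (450464 / 2025 + 3199232 / 2025 * h + 1711232 / 405 * h ^ 2 + 9954304 / 2025 * h ^ 3 +
      2048 * h ^ 4)

/-- The test polynomial for the one-sided bound. -/
def PDp (h : ℝ) : ℝ :=
  1 + h * (h - 42 / 125) ^ 2 * (h - 18 / 25) ^ 2 *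
    (197 / 10 + 601 / 10 * h + 119 / 2 * h ^ 2 + 89 / 10 * h ^ 3 - 33 / 2 * h ^ 4 -
      33 / 5 * h ^ 5)

theorem expFL (t : ℝ) : ∑ k ∈ Finset.range (10 + 1), phL k * gk 24 t 1 k = FL t := by
  simp only [Finset.sum_range_succ, Finset.sum_range_zero, g24_2, g24_3, g24_4, g24_5, g24_6,
    g24_7, g24_8, g24_9, g24_10, phL, FL]
  simp only [gk]
  ring

theorem expFD (t : ℝ) : ∑ k ∈ Finset.range (10 + 1), phD k * gk 24 t 1 k = FD t := by
  simp only [Finset.sum_range_succ, Finset.sum_range_zero, g24_2, g24_3, g24_4, g24_5, g24_6,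
    g24_7, g24_8, g24_9, g24_10, phD, FD]
  simp only [gk]
  ring

theorem expPL (t : ℝ) : ∑ k ∈ Finset.range (10 + 1), aL k * gk 24 t 1 k = PL t := by
  simp only [Finset.sum_range_succ, Finset.sum_range_zero, g24_2, g24_3, g24_4, g24_5, g24_6,
    g24_7, g24_8, g24_9, g24_10, aL, PL]
  simp only [gk]
  ring

theorem expPD (t : ℝ) : ∑ k ∈ Finset.range (10 + 1), aD k * gk 24 t 1 k = PDp t := by
  simp only [Finset.sum_range_succ, Finset.sum_range_zero, g24_2, g24_3, g24_4, g24_5, g24_6,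
    g24_7, g24_8, g24_9, g24_10, aD, PDp]
  simp only [gk]
  ring

theorem FL_nonpos {t : ℝ} (h1 : -1 ≤ t) (h2 : t ≤ 1 / 2) : FL t ≤ 0 := by
  unfold FL
  exact mul_nonpos_of_nonneg_of_nonpos
    (mul_nonneg (mul_nonneg (mul_nonneg (mul_nonneg (by linarith) (sq_nonneg _)) (sq_nonneg _))
      (sq_nonneg _)) (sq_nonneg _)) (by linarith)

theorem FD_nonpos {t : ℝ} (h1 : -1 ≤ t) (h2 : t ≤ 1 / 2) : FD t ≤ 0 := by
  unfold FD
  exact mul_nonpos_of_nonneg_of_nonpos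
    (mul_nonneg (mul_nonneg (mul_nonneg (mul_nonneg (by linarith) (sq_nonneg _)) (sq_nonneg _))
      (sq_nonneg _)) (sq_nonneg _)) (by linarith)

theorem PL_ge {h : ℝ} (h0 : 0 ≤ h) (h1 : h ≤ 1) : 1 ≤ PL h := by
  unfold PL
  have h2 : 0 ≤ h * (h - 1 / 4) ^ 2 * (h - 1 / 2) ^ 2 * (1 - h) *
    (450464 / 2025 + 3199232 / 2025 * h + 1711232 / 405 * h ^ 2 + 9954304 / 2025 * h ^ 3 +
      2048 * h ^ 4) :=
    mul_nonneg (mul_nonneg (mul_nonneg (mul_nonneg h0 (sq_nonneg _)) (sq_nonneg _))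
      (by linarith)) (by positivity)
  linarith

theorem PL_nonneg {h : ℝ} (h0 : h ≤ 0) (h1 : -1 ≤ h) : 0 ≤ PL h := by
  have h2 : PL h = (h + 1) * (h + 1 / 4) ^ 2 * (h + 1 / 2) ^ 2 *
      (64 + 1234336 / 2025 * (-h) + 5095168 / 2025 * (-h) ^ 2 + 2124928 / 405 * (-h) ^ 3 +
        10781696 / 2025 * (-h) ^ 4 + 2048 * (-h) ^ 5) := by
    unfold PL
    ring
  rw [h2]
  have h3 : 0 ≤ -h := by linarith
  exact mul_nonneg (mul_nonneg (mul_nonneg (by linarith) (sq_nonneg _)) (sq_nonneg _))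
    (by positivity)

theorem PD_ge {h : ℝ} (h0 : 0 ≤ h) (h1 : h ≤ 1) : 1 ≤ PDp h := by
  unfold PDp
  have h4 : h ^ 4 ≤ 1 := pow_le_one₀ h0 h1
  have h5 : h ^ 5 ≤ h := by
    calc h ^ 5 = h * h ^ 4 := by ring
      _ ≤ h * 1 := mul_le_mul_of_nonneg_left h4 h0
      _ = h := mul_one h
  have h6 : 0 ≤ h ^ 2 := sq_nonneg h
  have h7 : 0 ≤ h ^ 3 := by positivity
  have h2 : 0 ≤ h * (h - 42 / 125) ^ 2 * (h - 18 / 25) ^ 2 *
    (197 / 10 + 601 / 10 * h + 119 / 2 * h ^ 2 + 89 / 10 * h ^ 3 - 33 / 2 * h ^ 4 -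
      33 / 5 * h ^ 5) :=
    mul_nonneg (mul_nonneg (mul_nonneg h0 (sq_nonneg _)) (sq_nonneg _)) (by linarith)
  linarith

variable {E : Type} [NormedAddCommGroup E] [InnerProductSpace ℝ E]

/-- The pole sums. -/
def SS (K : Finset E) (e : E) (k : ℕ) : ℝ := ∑ x ∈ K, gk 24 (inner ℝ x e) 1 k

theorem inner_bounds {x y : E} (hx : ‖x‖ = 1) (hy : ‖y‖ = 1) :
    -1 ≤ (inner ℝ x y : ℝ) ∧ (inner ℝ x y : ℝ) ≤ 1 := by
  have := abs_real_inner_le_norm x y
  rw [hx, hy, mul_one] at this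
  exact abs_le.mp this

/-- The inequality with a pole. -/
theorem pole_ineq [FiniteDimensional ℝ E] (hE : finrank ℝ E = 24) {K : Finset E}
    (hu : ∀ x ∈ K, ‖x‖ = 1)
    (hs : ∀ x ∈ K, ∀ y ∈ K, x ≠ y → inner ℝ x y ≤ (1 / 2 : ℝ)) {e : E} (he : ‖e‖ = 1)
    (φ : ℕ → ℝ) (hφ : ∀ k, 0 ≤ φ k) (F : ℝ → ℝ)
    (hF : ∀ t, ∑ k ∈ Finset.range (10 + 1), φ k * gk 24 t 1 k = F t)
    (hneg : ∀ t, -1 ≤ t → t ≤ 1 / 2 → F t ≤ 0) :
    ∑ k ∈ Finset.range (10 + 1), φ k * SS K e k ^ 2 ≤ K.card * F 1 := by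
  classical
  have hpole := fun k => gk_pole (n := 24) (by norm_num) hE K id (fun _ => 1) hu e he k
  simp only [id, one_mul] at hpole
  have h1 : ∑ k ∈ Finset.range (10 + 1), φ k * SS K e k ^ 2 ≤
      ∑ k ∈ Finset.range (10 + 1), φ k * ∑ x ∈ K, ∑ y ∈ K, gk 24 (inner ℝ x y) 1 k :=
    Finset.sum_le_sum (fun k _ => mul_le_mul_of_nonneg_left (hpole k) (hφ k))
  have h2 : ∑ k ∈ Finset.range (10 + 1), φ k * ∑ x ∈ K, ∑ y ∈ K, gk 24 (inner ℝ x y) 1 k =
      ∑ x ∈ K, ∑ y ∈ K, F (inner ℝ x y) := by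
    simp only [← hF, Finset.mul_sum]
    rw [Finset.sum_comm]
    apply Finset.sum_congr rfl
    intro x _
    rw [Finset.sum_comm]
  have h3 : ∑ x ∈ K, ∑ y ∈ K, F (inner ℝ x y) ≤
      ∑ x ∈ K, ∑ y ∈ K, (if y = x then F 1 else 0) := by
    apply Finset.sum_le_sum
    intro x hx
    apply Finset.sum_le_sum
    intro y hy
    by_cases hxy : y = x
    · rw [if_pos hxy, hxy, real_inner_self_eq_norm_sq, hu x hx, one_pow]
    · rw [if_neg hxy]
      exact hneg _ (inner_bounds (hu x hx) (hu y hy)).1 (hs x hx y hy (fun h => hxy h.symm))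
  have h4 : ∑ x ∈ K, ∑ y ∈ K, (if y = x then F 1 else 0) = K.card * F 1 := by
    have h5 : ∀ x ∈ K, ∑ y ∈ K, (if y = x then F 1 else 0) = F 1 := by
      intro x hx
      rw [Finset.sum_ite_eq', if_pos hx]
    rw [Finset.sum_congr rfl h5, Finset.sum_const, nsmul_eq_mul]
  linarith

theorem SS_zero (K : Finset E) (e : E) : SS K e 0 = K.card := by
  unfold SS
  simp [gk]

theorem sum_poly (K : Finset E) (e : E) (a : ℕ → ℝ) (P : ℝ → ℝ)
    (hP : ∀ t, ∑ k ∈ Finset.range (10 + 1), a k * gk 24 t 1 k = P t) :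
    ∑ x ∈ K, P (inner ℝ x e) = ∑ k ∈ Finset.range (10 + 1), a k * SS K e k := by
  unfold SS
  simp only [← hP, Finset.mul_sum]
  rw [Finset.sum_comm]

/-- The Cauchy-Schwarz inequality. -/
theorem cs_ineq (s : Finset ℕ) (a φ S : ℕ → ℝ) (hφ : ∀ k ∈ s, 0 < φ k) :
    (∑ k ∈ s, a k * S k) ^ 2 ≤ (∑ k ∈ s, a k ^ 2 / φ k) * ∑ k ∈ s, φ k * S k ^ 2 := by
  apply Finset.sum_sq_le_sum_mul_sum_of_sq_le_mul
  · intro k hk
    have := hφ k hk
    positivity
  · intro k hk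
    have := hφ k hk
    positivity
  · intro k hk
    have := hφ k hk
    apply le_of_eq
    field_simp

theorem phD_pos : ∀ k ∈ Finset.range (10 + 1), 0 < phD k := by
  intro k hk
  rw [Finset.mem_range] at hk
  interval_cases k <;> norm_num [phD]

theorem phL_pos : ∀ k ∈ Finset.Ico 1 (10 + 1), 0 < phL k := by
  intro k hk
  rw [Finset.mem_Ico] at hk
  obtain ⟨h1, h2⟩ := hk
  interval_cases k <;> norm_num [phL]

/-- The unconditional one-sided bound. -/
theorem one_sided_24 [FiniteDimensional ℝ E] (hE : finrank ℝ E = 24) {K : Finset E}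
    (hu : ∀ x ∈ K, ‖x‖ = 1)
    (hs : ∀ x ∈ K, ∀ y ∈ K, x ≠ y → inner ℝ x y ≤ (1 / 2 : ℝ)) {e : E} (he : ‖e‖ = 1)
    (ho : ∀ x ∈ K, 0 ≤ (inner ℝ x e : ℝ)) : K.card ≤ 160224 := by
  have h1 := pole_ineq hE hu hs he phD phD_nonneg FD expFD (fun t => FD_nonpos)
  have h2 := sum_poly K e aD PDp expPD
  have h3 : (K.card : ℝ) ≤ ∑ x ∈ K, PDp (inner ℝ x e) := by
    have h4 : (K.card : ℝ) = ∑ _x ∈ K, (1 : ℝ) := by simp
    rw [h4]
    apply Finset.sum_le_sum
    intro x hx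
    exact PD_ge (ho x hx) (inner_bounds (hu x hx) he).2
  have h4 := cs_ineq (Finset.range (10 + 1)) aD phD (SS K e) phD_pos
  rw [← h2] at h4
  have h5 : (∑ k ∈ Finset.range (10 + 1), aD k ^ 2 / phD k) * FD 1 ≤ 320449 / 2 := by
    simp only [Finset.sum_range_succ, Finset.sum_range_zero, aD, phD, FD]
    norm_num
  have h6 : 0 ≤ ∑ k ∈ Finset.range (10 + 1), aD k ^ 2 / phD k := by
    apply Finset.sum_nonneg
    intro k hk
    have := phD_pos k hk
    positivity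
  have h7 : (K.card : ℝ) ^ 2 ≤ K.card * (320449 / 2) := by
    have h8 : (0 : ℝ) ≤ K.card := Nat.cast_nonneg _
    calc (K.card : ℝ) ^ 2 ≤ (∑ x ∈ K, PDp (inner ℝ x e)) ^ 2 := pow_le_pow_left₀ h8 h3 2
      _ ≤ (∑ k ∈ Finset.range (10 + 1), aD k ^ 2 / phD k) *
          ∑ k ∈ Finset.range (10 + 1), phD k * SS K e k ^ 2 := h4
      _ ≤ (∑ k ∈ Finset.range (10 + 1), aD k ^ 2 / phD k) * (K.card * FD 1) :=
          mul_le_mul_of_nonneg_left h1 h6
      _ = K.card * ((∑ k ∈ Finset.range (10 + 1), aD k ^ 2 / phD k) * FD 1) := by ring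
      _ ≤ K.card * (320449 / 2) := mul_le_mul_of_nonneg_left h5 h8
  have h8 : K.card < 160225 := by
    by_contra h9
    push Not at h9
    have h10 : (160225 : ℝ) ≤ K.card := by exact_mod_cast h9
    nlinarith
  omega

/-- Number of points in a closed hemisphere. -/
theorem hemi_24 [FiniteDimensional ℝ E] (hE : finrank ℝ E = 24) {K : Finset E}
    (hu : ∀ x ∈ K, ‖x‖ = 1)
    (hs : ∀ x ∈ K, ∀ y ∈ K, x ≠ y → inner ℝ x y ≤ (1 / 2 : ℝ)) {e : E} (he : ‖e‖ = 1) :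
    ((K.filter (fun x => 0 ≤ (inner ℝ x e : ℝ))).card : ℝ) ≤ 9657 / 13104 * K.card +
      15 / 4 * Real.sqrt (K.card * (196560 - K.card)) := by
  have h1 := pole_ineq hE hu hs he phL phL_nonneg FL expFL (fun t => FL_nonpos)
  have h2 := sum_poly K e aL PL expPL
  have h3 : ((K.filter (fun x => 0 ≤ (inner ℝ x e : ℝ))).card : ℝ) ≤
      ∑ x ∈ K, PL (inner ℝ x e) := by
    have h4 : ((K.filter (fun x => 0 ≤ (inner ℝ x e : ℝ))).card : ℝ) =
        ∑ x ∈ K, (if 0 ≤ (inner ℝ x e : ℝ) then (1 : ℝ) else 0) := by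
      rw [← Finset.sum_filter]
      simp
    rw [h4]
    apply Finset.sum_le_sum
    intro x hx
    have hb := inner_bounds (hu x hx) he
    split_ifs with h5
    · exact PL_ge h5 hb.2
    · push Not at h5
      exact PL_nonneg h5.le hb.1
  have hsplit : ∀ g : ℕ → ℝ, ∑ k ∈ Finset.range (10 + 1), g k =
      g 0 + ∑ k ∈ Finset.Ico 1 (10 + 1), g k := by
    intro g
    rw [Finset.range_eq_Ico, Finset.sum_eq_sum_Ico_succ_bot (by norm_num)]
  have h4 := cs_ineq (Finset.Ico 1 (10 + 1)) aL phL (SS K e) phL_pos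
  rw [hsplit, SS_zero] at h1 h2
  have hF1 : FL 1 = 196560 * phL 0 := by
    norm_num [FL, phL]
  have hph0 : phL 0 = 15 / 1490944 := rfl
  have ha0 : aL 0 = 9657 / 13104 := by
    norm_num [aL]
  rw [hF1] at h1
  have h5 : ∑ k ∈ Finset.Ico 1 (10 + 1), phL k * SS K e k ^ 2 ≤
      phL 0 * (K.card * (196560 - K.card)) := by
    linarith
  have h6 : (∑ k ∈ Finset.Ico 1 (10 + 1), aL k ^ 2 / phL k) * phL 0 ≤ (15 / 4) ^ 2 := by
    rw [Finset.sum_Ico_eq_sum_range]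
    simp only [Finset.sum_range_succ, Finset.sum_range_zero, aL, phL]
    norm_num
  have h7 : 0 ≤ ∑ k ∈ Finset.Ico 1 (10 + 1), aL k ^ 2 / phL k := by
    apply Finset.sum_nonneg
    intro k hk
    have := phL_pos k hk
    positivity
  have h8 : 0 ≤ ∑ k ∈ Finset.Ico 1 (10 + 1), phL k * SS K e k ^ 2 := by
    apply Finset.sum_nonneg
    intro k hk
    have := phL_pos k hk
    positivity
  have h9 : 0 ≤ (K.card : ℝ) * (196560 - K.card) := by
    have h10 : 0 ≤ phL 0 * ((K.card : ℝ) * (196560 - K.card)) := h8.trans h5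
    rw [hph0] at h10
    linarith
  have h10 : (∑ k ∈ Finset.Ico 1 (10 + 1), aL k * SS K e k) ^ 2 ≤
      (15 / 4 * Real.sqrt (K.card * (196560 - K.card))) ^ 2 := by
    rw [mul_pow, Real.sq_sqrt h9]
    calc (∑ k ∈ Finset.Ico 1 (10 + 1), aL k * SS K e k) ^ 2 ≤
          (∑ k ∈ Finset.Ico 1 (10 + 1), aL k ^ 2 / phL k) *
            ∑ k ∈ Finset.Ico 1 (10 + 1), phL k * SS K e k ^ 2 := h4
      _ ≤ (∑ k ∈ Finset.Ico 1 (10 + 1), aL k ^ 2 / phL k) *
          (phL 0 * (K.card * (196560 - K.card))) := mul_le_mul_of_nonneg_left h5 h7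
      _ = ((∑ k ∈ Finset.Ico 1 (10 + 1), aL k ^ 2 / phL k) * phL 0) *
          (K.card * (196560 - K.card)) := by ring
      _ ≤ (15 / 4) ^ 2 * (K.card * (196560 - K.card)) := mul_le_mul_of_nonneg_right h6 h9
  have h11 : ∑ k ∈ Finset.Ico 1 (10 + 1), aL k * SS K e k ≤
      15 / 4 * Real.sqrt (K.card * (196560 - K.card)) :=
    abs_le_of_sq_le_sq' h10 (by positivity) |>.2
  rw [ha0] at h2
  linarith

end KissLP
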