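import Pool.Agent.Lib.KissLP.Full
import Pool.Agent.Lib.KissLP.Kiss24

/-!
# Passing from vectors of norm two to unit vectors; the exact count
-/

set_option autoImplicit false

open Module

noncomputable section

namespace KissLP

variable {E : Type} [NormedAddCommGroup E] [InnerProductSpace ℝ E]

/-- The number of points in the hemisphere centred at a point of an optimal configuration. -/
theorem exact_24 [FiniteDimensional ℝ E] (hE : finrank ℝ E = 24) {K : Finset E}
    (hu : ∀ x ∈ K, ‖x‖ = 1)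
    (hs : ∀ x ∈ K, ∀ y ∈ K, x ≠ y → inner ℝ x y ≤ (1 / 2 : ℝ)) (hN : K.card = 196560)
    {e : E} (he : e ∈ K) : (K.filter (fun x => 0 ≤ (inner ℝ x e : ℝ))).card = 144855 := by
  classical
  have h1 := pole_ineq hE hu hs (hu e he) phL phL_nonneg FL expFL (fun t => FL_nonpos)
  have h2 := sum_poly K e aL PL expPL
  have h2' := sum_poly K e phL FL expFL
  have hsplit : ∀ g : ℕ → ℝ, ∑ k ∈ Finset.range (10 + 1), g k =
      g 0 + ∑ k ∈ Finset.Ico 1 (10 + 1), g k := by
    intro g
    rw [Finset.range_eq_Ico, Finset.sum_eq_sum_Ico_succ_bot (by norm_num)]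
  rw [hsplit, SS_zero, hN] at h1 h2 h2'
  have hF1 : FL 1 = 196560 * phL 0 := by
    norm_num [FL, phL]
  have h3 : ∑ k ∈ Finset.Ico 1 (10 + 1), phL k * SS K e k ^ 2 ≤ 0 := by
    rw [hF1] at h1
    push_cast at h1
    linarith
  have h4 : ∀ k ∈ Finset.Ico 1 (10 + 1), SS K e k = 0 := by
    have h5 : ∀ k ∈ Finset.Ico 1 (10 + 1), 0 ≤ phL k * SS K e k ^ 2 := by
      intro k hk
      have := phL_pos k hk
      positivity
    have h6 := (Finset.sum_eq_zero_iff_of_nonneg h5).mp (le_antisymm h3 (Finset.sum_nonneg h5))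
    intro k hk
    rcases mul_eq_zero.mp (h6 k hk) with h7 | h7
    · exact absurd h7 (phL_pos k hk).ne'
    · exact pow_eq_zero_iff (two_ne_zero) |>.mp h7
  have h5 : ∀ a : ℕ → ℝ, ∑ k ∈ Finset.Ico 1 (10 + 1), a k * SS K e k = 0 := by
    intro a
    apply Finset.sum_eq_zero
    intro k hk
    rw [h4 k hk, mul_zero]
  rw [h5, add_zero] at h2 h2'
  -- the row of the kernel
  have hee : (inner ℝ e e : ℝ) = 1 := by
    rw [real_inner_self_eq_norm_sq, hu e he, one_pow]
  have hle : ∀ x ∈ K, FL (inner ℝ x e) ≤ (if x = e then FL 1 else 0) := by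
    intro x hx
    by_cases hxe : x = e
    · rw [if_pos hxe, hxe, hee]
    · rw [if_neg hxe]
      exact FL_nonpos (inner_bounds (hu x hx) (hu e he)).1 (hs x hx e he hxe)
  have heq := (Finset.sum_eq_sum_iff_of_le hle).mp (by
    rw [h2', Finset.sum_ite_eq', if_pos he, hF1]
    push_cast
    ring)
  have hval : ∀ x ∈ K, PL (inner ℝ x e) = (if 0 ≤ (inner ℝ x e : ℝ) then (1 : ℝ) else 0) := by
    intro x hx
    by_cases hxe : x = e
    · rw [hxe, hee, if_pos (by norm_num)]
      norm_num [PL]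
    · have h6 := heq x hx
      rw [if_neg hxe] at h6
      unfold FL at h6
      set t : ℝ := inner ℝ x e with ht
      have h7 : t = -1 ∨ t = -(1 / 2) ∨ t = -(1 / 4) ∨ t = 0 ∨ t = 1 / 4 ∨ t = 1 / 2 := by
        simp only [mul_eq_zero, pow_eq_zero_iff (two_ne_zero)] at h6
        rcases h6 with ((((h6 | h6) | h6) | h6) | h6) | h6
        · left; linarith
        · right; left; linarith
        · right; right; left; linarith
        · right; right; right; left; exact h6
        · right; right; right; right; left; linarith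
        · right; right; right; right; right; linarith
      rcases h7 with h7 | h7 | h7 | h7 | h7 | h7 <;> rw [h7] <;> norm_num [PL]
  have h6 : ((K.filter (fun x => 0 ≤ (inner ℝ x e : ℝ))).card : ℝ) = 144855 := by
    have h7 : ((K.filter (fun x => 0 ≤ (inner ℝ x e : ℝ))).card : ℝ) =
        ∑ x ∈ K, (if 0 ≤ (inner ℝ x e : ℝ) then (1 : ℝ) else 0) := by
      rw [← Finset.sum_filter]
      simp
    rw [h7, ← Finset.sum_congr rfl hval, h2]
    norm_num [aL]
  exact_mod_cast h6

open Classical in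
/-- Half of the configuration. -/
def half (S : Finset E) : Finset E := S.image (fun c => (1 / 2 : ℝ) • c)

theorem half_inj : Function.Injective (fun c : E => (1 / 2 : ℝ) • c) :=
  smul_right_injective E (by norm_num)

theorem half_card (S : Finset E) : (half S).card = S.card := by
  classical
  unfold half
  exact Finset.card_image_of_injective _ half_inj

theorem half_inner (c d : E) :
    (inner ℝ ((1 / 2 : ℝ) • c) ((1 / 2 : ℝ) • d) : ℝ) = inner ℝ c d / 4 := by
  rw [inner_smul_left, inner_smul_right]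
  simp
  ring

theorem mem_half {S : Finset E} {x : E} : x ∈ half S ↔ ∃ c ∈ S, (1 / 2 : ℝ) • c = x := by
  classical
  unfold half
  rw [Finset.mem_image]

theorem half_unit {S : Finset E} (h : ∀ c ∈ S, ‖c‖ = 2) : ∀ x ∈ half S, ‖x‖ = 1 := by
  intro x hx
  obtain ⟨c, hc, rfl⟩ := mem_half.mp hx
  rw [norm_smul, h c hc]
  norm_num

theorem inner_le_of_dist {c d : E} (hc : ‖c‖ = 2) (hd : ‖d‖ = 2) (h : 2 ≤ dist c d) :
    (inner ℝ c d : ℝ) ≤ 2 := by
  rw [dist_eq_norm] at h
  have h1 : ‖c - d‖ ^ 2 = 8 - 2 * inner ℝ c d := by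
    rw [norm_sub_sq_real, hc, hd]
    ring
  nlinarith

theorem half_sep {S : Finset E} (h : ∀ c ∈ S, ‖c‖ = 2)
    (hd : ∀ c ∈ S, ∀ d ∈ S, c ≠ d → 2 ≤ dist c d) :
    ∀ x ∈ half S, ∀ y ∈ half S, x ≠ y → inner ℝ x y ≤ (1 / 2 : ℝ) := by
  intro x hx y hy hxy
  obtain ⟨c, hc, rfl⟩ := mem_half.mp hx
  obtain ⟨d, hd', rfl⟩ := mem_half.mp hy
  have hcd : c ≠ d := fun h => hxy (by rw [h])
  rw [half_inner]
  have := inner_le_of_dist (h c hc) (h d hd') (hd c hc d hd' hcd)
  linarith

theorem half_pole {S : Finset E} {u : E} (h : ∀ c ∈ S, 0 ≤ (inner ℝ c u : ℝ)) :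
    ∀ x ∈ half S, 0 ≤ (inner ℝ x u : ℝ) := by
  intro x hx
  obtain ⟨c, hc, rfl⟩ := mem_half.mp hx
  rw [inner_smul_left]
  have := h c hc
  simp
  linarith

open Classical in
theorem half_anti_card (S : Finset E) :
    (anti (half S)).card = (S.filter (fun c => -c ∈ S)).card := by
  have h1 : anti (half S) = half (S.filter (fun c => -c ∈ S)) := by
    ext x
    rw [mem_anti]
    constructor
    · rintro ⟨h1, h2⟩
      obtain ⟨c, hc, rfl⟩ := mem_half.mp h1
      obtain ⟨d, hd, hd'⟩ := mem_half.mp h2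
      rw [← smul_neg] at hd'
      have h3 : d = -c := half_inj hd'
      exact mem_half.mpr ⟨c, Finset.mem_filter.mpr ⟨hc, h3 ▸ hd⟩, rfl⟩
    · intro h0
      obtain ⟨c, hc, rfl⟩ := mem_half.mp h0
      rw [Finset.mem_filter] at hc
      exact ⟨mem_half.mpr ⟨c, hc.1, rfl⟩, mem_half.mpr ⟨-c, hc.2, smul_neg _ _⟩⟩
  rw [h1, half_card]

open Classical in
theorem half_conf_card (S : Finset E) :
    (conf (half S)).card = ((S ×ˢ S).filter (fun p => -4 < (inner ℝ p.1 p.2 : ℝ) ∧
      (inner ℝ p.1 p.2 : ℝ) < -2)).card := by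
  symm
  apply Finset.card_bij (fun p _ => ((1 / 2 : ℝ) • p.1, (1 / 2 : ℝ) • p.2))
  · rintro ⟨c, d⟩ h
    rw [Finset.mem_filter, Finset.mem_product] at h
    unfold conf
    rw [Finset.mem_filter, Finset.mem_product]
    simp only at h ⊢
    rw [half_inner]
    exact ⟨⟨mem_half.mpr ⟨c, h.1.1, rfl⟩, mem_half.mpr ⟨d, h.1.2, rfl⟩⟩, by linarith [h.2.1],
      by linarith [h.2.2]⟩
  · rintro ⟨c, d⟩ _ ⟨c', d'⟩ _ h
    rw [Prod.mk.injEq] at h
    have h1 : c = c' := half_inj h.1
    have h2 : d = d' := half_inj h.2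
    rw [h1, h2]
  · rintro ⟨x, y⟩ h
    unfold conf at h
    rw [Finset.mem_filter, Finset.mem_product] at h
    obtain ⟨⟨hx, hy⟩, h1, h2⟩ := h
    simp only at hx hy h1 h2
    obtain ⟨c, hc, rfl⟩ := mem_half.mp hx
    obtain ⟨d, hd, rfl⟩ := mem_half.mp hy
    rw [half_inner] at h1 h2
    refine ⟨(c, d), ?_, rfl⟩
    rw [Finset.mem_filter, Finset.mem_product]
    exact ⟨⟨hc, hd⟩, by simp only; linarith, by simp only; linarith⟩

theorem half_conf_empty {S : Finset E} (h : ∀ c ∈ S, ‖c‖ = 2)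
    (hsy : ∀ c ∈ S, ∀ d ∈ S, c ≠ -d → 2 ≤ dist c (-d)) : conf (half S) = ∅ := by
  classical
  rw [Finset.eq_empty_iff_forall_notMem]
  rintro ⟨x, y⟩ hm
  unfold conf at hm
  rw [Finset.mem_filter, Finset.mem_product] at hm
  obtain ⟨⟨hx, hy⟩, h1, h2⟩ := hm
  simp only at hx hy h1 h2
  obtain ⟨c, hc, rfl⟩ := mem_half.mp hx
  obtain ⟨d, hd, rfl⟩ := mem_half.mp hy
  rw [half_inner] at h1 h2
  by_cases hcd : c = -d
  · rw [hcd, inner_neg_left, real_inner_self_eq_norm_sq, h d hd] at h1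
    norm_num at h1
  · have h3 := inner_le_of_dist (h c hc) (by rw [norm_neg]; exact h d hd) (hsy c hc d hd hcd)
    rw [inner_neg_right] at h3
    linarith

open Classical in
theorem half_filter_card (S : Finset E) (u : E) :
    ((half S).filter (fun x => 0 ≤ (inner ℝ x u : ℝ))).card =
      (S.filter (fun c => 0 ≤ (inner ℝ c u : ℝ))).card := by
  have h1 : (half S).filter (fun x => 0 ≤ (inner ℝ x u : ℝ)) =
      half (S.filter (fun c => 0 ≤ (inner ℝ c u : ℝ))) := by
    ext x
    rw [Finset.mem_filter, mem_half, mem_half]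
    constructor
    · rintro ⟨⟨c, hc, rfl⟩, h1⟩
      rw [inner_smul_left] at h1
      simp at h1
      exact ⟨c, Finset.mem_filter.mpr ⟨hc, by linarith⟩, rfl⟩
    · rintro ⟨c, hc, rfl⟩
      rw [Finset.mem_filter] at hc
      refine ⟨⟨c, hc.1, rfl⟩, ?_⟩
      rw [inner_smul_left]
      simp
      linarith [hc.2]
  rw [h1, half_card]

end KissLP
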