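import Pool.Agent.Lib.KissLP.Pd

/-!
# Linear programming inequalities for kissing configurations
-/

set_option autoImplicit false

open Module

noncomputable section

namespace KissLP

variable {E : Type} [NormedAddCommGroup E] [InnerProductSpace ℝ E]

/-- Nonnegativity for unit vectors orthogonal to `u`. -/
theorem gk_hyper [FiniteDimensional ℝ E] {n : ℕ} (hn : 2 ≤ n) (hE : finrank ℝ E = n + 1)
    {u : E} (hu : u ≠ 0) (s : Finset E) (w : E → ℝ) (hv : ∀ a ∈ s, ‖a‖ = 1)
    (ho : ∀ a ∈ s, inner ℝ a u = 0) (k : ℕ) :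
    0 ≤ ∑ a ∈ s, ∑ b ∈ s, w a * w b * gk n (inner ℝ a b) 1 k := by
  classical
  have : Fact (finrank ℝ E = n + 1) := ⟨hE⟩
  have hF : finrank ℝ (ℝ ∙ u)ᗮ = n := Submodule.finrank_orthogonal_span_singleton hu
  have hmem : ∀ a ∈ s, a ∈ (ℝ ∙ u)ᗮ := by
    intro a ha
    rw [Submodule.mem_orthogonal_singleton_iff_inner_left]
    exact ho a ha
  let v : E → (ℝ ∙ u)ᗮ := fun a => if h : a ∈ (ℝ ∙ u)ᗮ then ⟨a, h⟩ else 0
  have hva : ∀ a ∈ s, ((v a : (ℝ ∙ u)ᗮ) : E) = a := by
    intro a ha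
    simp only [v]
    rw [dif_pos (hmem a ha)]
  have h1 := gk_sum_nonneg hn hF s v w (fun a ha => by
    show ‖((v a : (ℝ ∙ u)ᗮ) : E)‖ = 1
    rw [hva a ha]
    exact hv a ha) k
  refine le_of_le_of_eq h1 ?_
  apply Finset.sum_congr rfl
  intro a ha
  apply Finset.sum_congr rfl
  intro b hb
  rw [Submodule.coe_inner, hva a ha, hva b hb]

/-- Positive definiteness of all Gegenbauer kernels of dimension `n` on `s`. -/
def PD (n : ℕ) (s : Finset E) : Prop :=
  ∀ (w : E → ℝ) (k : ℕ), 0 ≤ ∑ a ∈ s, ∑ b ∈ s, w a * w b * gk n (inner ℝ a b) 1 k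

theorem pd_full [FiniteDimensional ℝ E] {n : ℕ} (hn : 2 ≤ n) (hE : finrank ℝ E = n)
    (s : Finset E) (hv : ∀ a ∈ s, ‖a‖ = 1) : PD n s :=
  fun w k => gk_sum_nonneg hn hE s id w hv k

theorem pd_hyper [FiniteDimensional ℝ E] {n : ℕ} (hn : 2 ≤ n) (hE : finrank ℝ E = n + 1)
    {u : E} (hu : u ≠ 0) (s : Finset E) (hv : ∀ a ∈ s, ‖a‖ = 1)
    (ho : ∀ a ∈ s, inner ℝ a u = 0) : PD n s :=
  fun w k => gk_hyper hn hE hu s w hv ho k

/-- Lower bound for a positive combination. -/
theorem PD.lower {n : ℕ} {s : Finset E} (h : PD n s) (w : E → ℝ) (d : ℕ) (c : ℕ → ℝ)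
    (hc : ∀ k, 0 ≤ c k) :
    c 0 * (∑ a ∈ s, w a) ^ 2 ≤ ∑ a ∈ s, ∑ b ∈ s, w a * w b *
      ∑ k ∈ Finset.range (d + 1), c k * gk n (inner ℝ a b) 1 k := by
  have h1 : ∑ a ∈ s, ∑ b ∈ s, w a * w b *
      ∑ k ∈ Finset.range (d + 1), c k * gk n (inner ℝ a b) 1 k =
      ∑ k ∈ Finset.range (d + 1), c k * ∑ a ∈ s, ∑ b ∈ s, w a * w b *
        gk n (inner ℝ a b) 1 k := by
    have h2 : ∀ a ∈ s, ∑ b ∈ s, w a * w b *
        ∑ k ∈ Finset.range (d + 1), c k * gk n (inner ℝ a b) 1 k =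
        ∑ k ∈ Finset.range (d + 1), ∑ b ∈ s, c k * (w a * w b * gk n (inner ℝ a b) 1 k) := by
      intro a _
      rw [Finset.sum_comm]
      apply Finset.sum_congr rfl
      intro b _
      rw [Finset.mul_sum]
      apply Finset.sum_congr rfl
      intro k _
      ring
    rw [Finset.sum_congr rfl h2, Finset.sum_comm]
    apply Finset.sum_congr rfl
    intro k _
    rw [Finset.mul_sum]
    apply Finset.sum_congr rfl
    intro a _
    rw [Finset.mul_sum]
  rw [h1, Finset.sum_range_succ']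
  have h3 : c 0 * ∑ a ∈ s, ∑ b ∈ s, w a * w b * gk n (inner ℝ a b) 1 0 =
      c 0 * (∑ a ∈ s, w a) ^ 2 := by
    simp only [gk, mul_one]
    rw [sq, Finset.sum_mul_sum]
  rw [h3]
  have h4 : 0 ≤ ∑ k ∈ Finset.range d, c (k + 1) * ∑ a ∈ s, ∑ b ∈ s, w a * w b *
      gk n (inner ℝ a b) 1 (k + 1) :=
    Finset.sum_nonneg (fun k _ => mul_nonneg (hc _) (h w _))
  linarith

open Classical in
/-- Weights which count antipodal pairs once. -/
def wt (K : Finset E) (x : E) : ℝ := if -x ∈ K then 1 / 2 else 1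

open Classical in
/-- The points whose antipode also occurs. -/
def anti (K : Finset E) : Finset E := K.filter (fun x => -x ∈ K)

open Classical in
/-- Ordered pairs at angle strictly between 120 and 180 degrees. -/
def conf (K : Finset E) : Finset (E × E) :=
  (K ×ˢ K).filter (fun p => -1 < inner ℝ p.1 p.2 ∧ inner ℝ p.1 p.2 < -(1 / 2 : ℝ))

theorem wt_nonneg (K : Finset E) (x : E) : 0 ≤ wt K x := by
  unfold wt
  split_ifs <;> norm_num

theorem wt_le_one (K : Finset E) (x : E) : wt K x ≤ 1 := by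
  unfold wt
  split_ifs <;> norm_num

theorem sum_wt (K : Finset E) : ∑ x ∈ K, wt K x = K.card - ((anti K).card : ℝ) / 2 := by
  classical
  have h1 : ∀ x ∈ K, wt K x = 1 - (if -x ∈ K then 1 / 2 else 0) := by
    intro x _
    unfold wt
    split_ifs <;> norm_num
  rw [Finset.sum_congr rfl h1, Finset.sum_sub_distrib, ← Finset.sum_filter]
  simp only [Finset.sum_const, nsmul_eq_mul, mul_one]
  have h2 : (K.filter (fun x => -x ∈ K)) = anti K := by
    unfold anti
    congr
  rw [h2]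
  ring

/-- Upper bound for the weighted sum of an even kernel. -/
theorem upper_even (K : Finset E) (hu : ∀ x ∈ K, ‖x‖ = 1)
    (hs : ∀ x ∈ K, ∀ y ∈ K, x ≠ y → inner ℝ x y ≤ (1 / 2 : ℝ)) (F : ℝ → ℝ) (M : ℝ) (hM : 0 ≤ M)
    (h1 : F 1 = M) (h2 : F (-1) = M) (h3 : ∀ t, -1 ≤ t → t ≤ -(1 / 2) → F t ≤ M)
    (h4 : ∀ x ∈ K, ∀ y ∈ K, |(inner ℝ x y : ℝ)| ≤ 1 / 2 → F (inner ℝ x y) ≤ 0) :
    ∑ x ∈ K, ∑ y ∈ K, wt K x * wt K y * F (inner ℝ x y) ≤
      M * (∑ x ∈ K, wt K x + ((conf K).card : ℝ)) := by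
  classical
  have hne : ∀ x ∈ K, x ≠ -x := by
    intro x hx h
    have h5 : x + x = 0 := by
      nth_rewrite 2 [h]
      simp
    have h6 : x = 0 := by
      have : (2 : ℝ) • x = 0 := by rw [two_smul, h5]
      rcases smul_eq_zero.mp this with h7 | h7
      · norm_num at h7
      · exact h7
    have h7 := hu x hx
    rw [h6, norm_zero] at h7
    norm_num at h7
  have key : ∀ x ∈ K, ∀ y ∈ K, wt K x * wt K y * F (inner ℝ x y) ≤
      (if y = x then wt K x * wt K y * M else 0) + (if y = -x then wt K x * wt K y * M else 0) +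
      (if (-1 < (inner ℝ x y : ℝ) ∧ (inner ℝ x y : ℝ) < -(1 / 2 : ℝ)) then M else 0) := by
    intro x hx y hy
    have hw : 0 ≤ wt K x * wt K y := mul_nonneg (wt_nonneg K x) (wt_nonneg K y)
    have hw1 : wt K x * wt K y ≤ 1 := mul_le_one₀ (wt_le_one K x) (wt_nonneg K y) (wt_le_one K y)
    have hc : 0 ≤ (if (-1 < (inner ℝ x y : ℝ) ∧ (inner ℝ x y : ℝ) < -(1 / 2 : ℝ)) then M
        else 0) := by
      split_ifs
      · exact hM
      · exact le_refl 0
    by_cases hxy : y = x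
    · subst hxy
      have h5 : (inner ℝ y y : ℝ) = 1 := by
        rw [real_inner_self_eq_norm_sq, hu y hy]
        norm_num
      rw [if_pos rfl, if_neg (hne y hy)]
      rw [h5] at hc ⊢
      rw [h1]
      linarith
    · by_cases hxy' : y = -x
      · have h5 : (inner ℝ x y : ℝ) = -1 := by
          rw [hxy', inner_neg_right, real_inner_self_eq_norm_sq, hu x hx]
          norm_num
        rw [if_neg hxy, if_pos hxy']
        rw [h5] at hc ⊢
        rw [h2]
        linarith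
      · rw [if_neg hxy, if_neg hxy', zero_add, zero_add]
        have h6 : (inner ℝ x y : ℝ) ≤ 1 / 2 := hs x hx y hy (fun h => hxy h.symm)
        have h7 : -1 < (inner ℝ x y : ℝ) := by
          have h8 : 0 < ‖x + y‖ := by
            rw [norm_pos_iff]
            intro h
            exact hxy' (eq_neg_of_add_eq_zero_right h)
          have h9 : ‖x + y‖ ^ 2 = 2 + 2 * inner ℝ x y := by
            rw [norm_add_sq_real, hu x hx, hu y hy]
            ring
          nlinarith [pow_pos h8 2]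
        by_cases h8 : (inner ℝ x y : ℝ) < -(1 / 2 : ℝ)
        · rw [if_pos ⟨h7, h8⟩]
          have h9 := h3 _ h7.le h8.le
          calc wt K x * wt K y * F (inner ℝ x y) ≤ wt K x * wt K y * M :=
                mul_le_mul_of_nonneg_left h9 hw
            _ ≤ 1 * M := mul_le_mul_of_nonneg_right hw1 hM
            _ = M := one_mul M
        · rw [if_neg (fun h => h8 h.2)]
          have h9 := h4 x hx y hy (by
            rw [abs_le]
            constructor <;> linarith)
          exact mul_nonpos_of_nonneg_of_nonpos hw h9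
  have h5 : ∑ x ∈ K, ∑ y ∈ K, wt K x * wt K y * F (inner ℝ x y) ≤ ∑ x ∈ K, ∑ y ∈ K,
      ((if y = x then wt K x * wt K y * M else 0) + (if y = -x then wt K x * wt K y * M else 0) +
      (if (-1 < (inner ℝ x y : ℝ) ∧ (inner ℝ x y : ℝ) < -(1 / 2 : ℝ)) then M else 0)) :=
    Finset.sum_le_sum (fun x hx => Finset.sum_le_sum (fun y hy => key x hx y hy))
  refine h5.trans (le_of_eq ?_)
  have h6 : ∀ x ∈ K, ∑ y ∈ K,
      ((if y = x then wt K x * wt K y * M else 0) + (if y = -x then wt K x * wt K y * M else 0) +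
      (if (-1 < (inner ℝ x y : ℝ) ∧ (inner ℝ x y : ℝ) < -(1 / 2 : ℝ)) then M else 0)) =
      wt K x * M +
      ∑ y ∈ K, (if (-1 < (inner ℝ x y : ℝ) ∧ (inner ℝ x y : ℝ) < -(1 / 2 : ℝ)) then M else 0) := by
    intro x hx
    rw [Finset.sum_add_distrib, Finset.sum_add_distrib, Finset.sum_ite_eq', if_pos hx,
      Finset.sum_ite_eq']
    congr 1
    by_cases h : -x ∈ K
    · rw [if_pos h]
      have h7 : wt K x = 1 / 2 := by
        unfold wt
        rw [if_pos h]
      have h8 : wt K (-x) = 1 / 2 := by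
        unfold wt
        rw [neg_neg, if_pos hx]
      rw [h7, h8]
      ring
    · rw [if_neg h]
      have h7 : wt K x = 1 := by
        unfold wt
        rw [if_neg h]
      rw [h7]
      ring
  rw [Finset.sum_congr rfl h6, Finset.sum_add_distrib, ← Finset.sum_mul]
  have h7 : ∑ x ∈ K, ∑ y ∈ K,
      (if (-1 < (inner ℝ x y : ℝ) ∧ (inner ℝ x y : ℝ) < -(1 / 2 : ℝ)) then M else 0) =
      ((conf K).card : ℝ) * M := by
    rw [← Finset.sum_product', ← Finset.sum_filter, Finset.sum_const, nsmul_eq_mul]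
    congr 2
  rw [h7]
  ring

end KissLP
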