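import Pool.Agent.Lib.KissLP.Full

/-!
# Dimension five: all wide pairs share a point
-/

set_option autoImplicit false

open Module

noncomputable section

namespace KissLP

variable {E : Type} [NormedAddCommGroup E] [InnerProductSpace ℝ E]

theorem anti_even {K : Finset E} (hu : ∀ x ∈ K, ‖x‖ = 1) : Even (anti K).card := by
  classical
  have h1 : ∑ _x ∈ anti K, (1 : ZMod 2) = 0 := by
    apply Finset.sum_involution (fun x _ => -x)
    · intro a _
      decide
    · intro a ha _ h
      have h5 : a + a = 0 := by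
        nth_rewrite 1 [← h]
        simp
      have h6 : (2 : ℝ) • a = 0 := by rw [two_smul, h5]
      rcases smul_eq_zero.mp h6 with h7 | h7
      · norm_num at h7
      · have h8 := hu a (mem_anti.mp ha).1
        rw [h7, norm_zero] at h8
        norm_num at h8
    · intro a _
      exact neg_neg a
    · intro a ha
      rw [mem_anti] at ha ⊢
      rw [neg_neg]
      exact ⟨ha.2, ha.1⟩
  rw [Finset.sum_const, nsmul_eq_mul, mul_one] at h1
  exact (ZMod.natCast_eq_zero_iff_even).mp h1

/-- If all wide pairs share a point then there are at most `32` points. -/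
theorem dim5_near [FiniteDimensional ℝ E] (hE : finrank ℝ E = 5) {K : Finset E}
    (hu : ∀ x ∈ K, ‖x‖ = 1)
    (hs : ∀ x ∈ K, ∀ y ∈ K, x ≠ y → inner ℝ x y ≤ (1 / 2 : ℝ)) {u : E} (hu1 : ‖u‖ = 1)
    (ho : ∀ x ∈ K, 0 ≤ (inner ℝ x u : ℝ)) (x₀ : E)
    (hc : ∀ p ∈ conf K, p.1 = x₀ ∨ p.2 = x₀) : K.card ≤ 32 := by
  classical
  have hu0 : u ≠ 0 := by
    intro h
    rw [h, norm_zero] at hu1
    norm_num at hu1
  by_contra hcon
  push Not at hcon
  set K' := K.erase x₀ with hK'
  have hsub : ∀ x ∈ K', x ∈ K := fun x hx => Finset.mem_of_mem_erase hx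
  have hne : ∀ x ∈ K', x ≠ x₀ := fun x hx => Finset.ne_of_mem_erase hx
  have hu' : ∀ x ∈ K', ‖x‖ = 1 := fun x hx => hu x (hsub x hx)
  have hs' : ∀ x ∈ K', ∀ y ∈ K', x ≠ y → inner ℝ x y ≤ (1 / 2 : ℝ) :=
    fun x hx y hy => hs x (hsub x hx) y (hsub y hy)
  have ho' : ∀ x ∈ K', 0 ≤ (inner ℝ x u : ℝ) := fun x hx => ho x (hsub x hx)
  have hc' : conf K' = ∅ := by
    rw [Finset.eq_empty_iff_forall_notMem]
    rintro ⟨x, y⟩ h
    unfold conf at h
    rw [Finset.mem_filter, Finset.mem_product] at h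
    have h1 : (x, y) ∈ conf K := by
      unfold conf
      rw [Finset.mem_filter, Finset.mem_product]
      exact ⟨⟨hsub x h.1.1, hsub y h.1.2⟩, h.2⟩
    rcases hc _ h1 with h2 | h2
    · exact hne x h.1.1 h2
    · exact hne y h.1.2 h2
  have h1 := dim5_sym hE hu' hs' hu0 ho' hc'
  have h2 : K.card - 1 ≤ K'.card := Finset.pred_card_le_card_erase
  have h3 : K'.card = 32 := by omega
  have h4 := dim5_anti hE hu' hs' hu0 ho'
  have h5 := dim5_quad hE hu' hs'
  have h6 := dim5_not_tight hE hu' hs' hc'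
  rw [sum_wt] at h6
  rw [hc', Finset.card_empty, Nat.cast_zero, add_zero, h3] at h5
  rw [h3] at h6
  have h7 : (22 : ℝ) < ((anti K').card : ℝ) := by
    push_cast at h5 h6
    by_contra h8
    push Not at h8
    apply h6
    have h9 : (21 : ℝ) ≤ 32 - ((anti K').card : ℝ) / 2 := by linarith
    nlinarith
  have h8 : 22 < (anti K').card := by exact_mod_cast h7
  have h9 := anti_even hu'
  have h10 : (anti K').card = 24 := by
    obtain ⟨r, hr⟩ := h9
    omega
  have h11 : anti K' ⊆ anti K := by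
    intro x hx
    rw [mem_anti] at hx ⊢
    exact ⟨hsub x hx.1, hsub _ hx.2⟩
  have h12 := Finset.card_le_card h11
  have h13 := dim5_anti hE hu hs hu0 ho
  have h14 := dim5_full hE hu hs hu1 ho (by omega)
  omega

end KissLP
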