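import Pool.Agent.Lib.KissLP.Fischer

/-!
# Positive definiteness with a pole, in inner product spaces
-/

set_option autoImplicit false

open MvPolynomial Module

noncomputable section

namespace KissLP

theorem gk_one {n : ℕ} (hn : 2 ≤ n) (k : ℕ) : gk n 1 1 k = 1 ∧ gk n 1 1 (k + 1) = 1 := by
  have hnR : (2 : ℝ) ≤ n := by exact_mod_cast hn
  induction k with
  | zero => exact ⟨rfl, rfl⟩
  | succ k ih =>
    refine ⟨ih.2, ?_⟩
    have hk : (0 : ℝ) ≤ k := Nat.cast_nonneg k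
    rw [gk, ih.1, ih.2]
    have h1 : (k : ℝ) + n - 1 ≠ 0 := by
      have : 0 < (k : ℝ) + n - 1 := by linarith
      exact this.ne'
    field_simp
    ring

/-- Coordinates version. -/
theorem gk_pole_coord {n : ℕ} (hn : 2 ≤ n) {ι : Type} (s : Finset ι) (v : ι → Fin n → ℝ)
    (w : ι → ℝ) (hv : ∀ a ∈ s, ∑ i, v a i * v a i = 1) (e : Fin n → ℝ)
    (he : ∑ i, e i * e i = 1) (k : ℕ) :
    (∑ a ∈ s, w a * gk n (∑ i, v a i * e i) 1 k) ^ 2 ≤
      ∑ a ∈ s, ∑ b ∈ s, w a * w b * gk n (∑ i, v a i * v b i) 1 k := by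
  have hc : 0 < lc n k * (k.factorial : ℝ) :=
    mul_pos (lc_pos hn k).1 (by exact_mod_cast Nat.factorial_pos k)
  set c : ℝ := lc n k * (k.factorial : ℝ) with hcdef
  set B : ℝ := ∑ a ∈ s, w a * gk n (∑ i, v a i * e i) 1 k with hB
  set A : ℝ := ∑ a ∈ s, ∑ b ∈ s, w a * w b * gk n (∑ i, v a i * v b i) 1 k with hA
  let P : MvPolynomial (Fin n) ℝ := ∑ a ∈ s, C (w a) * zon (v a) k
  have hPP : fis P P = c * A := by
    have h4 : ∀ a ∈ s, ∀ b ∈ s, fis (C (w a) * zon (v a) k) (C (w b) * zon (v b) k) =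
        c * (w a * w b * gk n (∑ i, v a i * v b i) 1 k) := by
      intro a ha b hb
      rw [fis_C_mul, C_mul', map_smul, smul_eq_mul, fis_zon hn, hv a ha, hv b hb, one_mul]
      ring
    show fis (∑ a ∈ s, C (w a) * zon (v a) k) (∑ a ∈ s, C (w a) * zon (v a) k) = c * A
    rw [map_sum]
    have h5 : ∀ b ∈ s, fis (∑ a ∈ s, C (w a) * zon (v a) k) (C (w b) * zon (v b) k) =
        ∑ a ∈ s, c * (w a * w b * gk n (∑ i, v a i * v b i) 1 k) := by
      intro b hb
      rw [map_sum, LinearMap.sum_apply]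
      exact Finset.sum_congr rfl (fun a ha => h4 a ha b hb)
    rw [Finset.sum_congr rfl h5, Finset.sum_comm, hA, Finset.mul_sum]
    apply Finset.sum_congr rfl
    intro a _
    rw [Finset.mul_sum]
  have hPQ : fis P (zon e k) = c * B := by
    show fis (∑ a ∈ s, C (w a) * zon (v a) k) (zon e k) = c * B
    rw [map_sum, LinearMap.sum_apply, hB, Finset.mul_sum]
    apply Finset.sum_congr rfl
    intro a ha
    rw [fis_C_mul, fis_zon hn, hv a ha, he, one_mul]
    ring
  have hQP : fis (zon e k) P = c * B := by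
    show fis (zon e k) (∑ a ∈ s, C (w a) * zon (v a) k) = c * B
    rw [map_sum, hB, Finset.mul_sum]
    apply Finset.sum_congr rfl
    intro a ha
    have h6 : ∑ i, e i * v a i = ∑ i, v a i * e i :=
      Finset.sum_congr rfl (fun i _ => mul_comm _ _)
    rw [C_mul', map_smul, smul_eq_mul, fis_zon hn, hv a ha, he, one_mul, h6]
    ring
  have hQQ : fis (zon e k) (zon e k) = c := by
    rw [fis_zon hn, he, one_mul, (gk_one hn k).1, mul_one]
  have h1 := fis_self_nonneg (P - C B * zon e k)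
  have h2 : fis (P - C B * zon e k) (P - C B * zon e k) = c * (A - B ^ 2) := by
    rw [map_sub, map_sub, LinearMap.sub_apply, LinearMap.sub_apply, fis_C_mul, fis_C_mul, C_mul',
      map_smul, map_smul, smul_eq_mul, smul_eq_mul, hPP, hPQ, hQP, hQQ]
    ring
  rw [h2] at h1
  have h3 := nonneg_of_mul_nonneg_right h1 hc
  linarith

/-- The inequality with a pole in an inner product space. -/
theorem gk_pole {E : Type} [NormedAddCommGroup E] [InnerProductSpace ℝ E]
    [FiniteDimensional ℝ E] {n : ℕ} (hn : 2 ≤ n) (hE : finrank ℝ E = n) {ι : Type}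
    (s : Finset ι) (v : ι → E) (w : ι → ℝ) (hv : ∀ a ∈ s, ‖v a‖ = 1) (e : E) (he : ‖e‖ = 1)
    (k : ℕ) :
    (∑ a ∈ s, w a * gk n (inner ℝ (v a) e) 1 k) ^ 2 ≤
      ∑ a ∈ s, ∑ b ∈ s, w a * w b * gk n (inner ℝ (v a) (v b)) 1 k := by
  subst hE
  let b := stdOrthonormalBasis ℝ E
  have hin : ∀ x y : E, ∑ i, b.repr x i * b.repr y i = inner ℝ x y := by
    intro x y
    rw [← b.repr.inner_map_map x y, PiLp.inner_apply]
    apply Finset.sum_congr rfl
    intro i _
    simp [mul_comm]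
  have h1 := gk_pole_coord hn s (fun a i => b.repr (v a) i) w
    (fun a ha => by rw [hin, real_inner_self_eq_norm_sq, hv a ha]; norm_num)
    (fun i => b.repr e i) (by rw [hin, real_inner_self_eq_norm_sq, he]; norm_num) k
  simp only [hin] at h1
  exact h1

/-- Nonnegativity without a pole. -/
theorem gk_sum_nonneg {E : Type} [NormedAddCommGroup E] [InnerProductSpace ℝ E]
    [FiniteDimensional ℝ E] {n : ℕ} (hn : 2 ≤ n) (hE : finrank ℝ E = n) {ι : Type}
    (s : Finset ι) (v : ι → E) (w : ι → ℝ) (hv : ∀ a ∈ s, ‖v a‖ = 1) (k : ℕ) :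
    0 ≤ ∑ a ∈ s, ∑ b ∈ s, w a * w b * gk n (inner ℝ (v a) (v b)) 1 k := by
  rcases s.eq_empty_or_nonempty with h | ⟨a, ha⟩
  · simp [h]
  · exact (sq_nonneg _).trans (gk_pole hn hE s v w hv (v a) (hv a ha) k)

end KissLP
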